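import Pool.Agent.Lib.MP.Combin

/-!
# From k-tuples to many integers with r primes: avoiding a small set of r-tuples

The same as `Pool.Agent.Lib.MP.combin_poly`, but the `r`-tuples of a given set `Good` of at most
`δ₀ |A| ^ r` tuples are avoided: few `k`-tuples have an `r`-subtuple in `Good`.
-/

open Finset
open scoped Classical

namespace Pool.Agent.Lib.MQ

open Pool.Agent.Lib.MP Pool.Agent.Lib.MP.CombinAux

namespace CombinBAux

/-- The number of `h : Fin k → A` with prescribed values on the range of an injective `σ`. -/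
lemma card_fiber (r k : ℕ) (A : Finset ℕ) (σ : Fin r → Fin k) (hσ : Function.Injective σ)
    (g : Fin r → ℕ) :
    ((Fintype.piFinset (fun _ : Fin k => A)).filter (fun h => (fun i => h (σ i)) = g)).card ≤
      A.card ^ (k - r) := by
  have hcard : Fintype.card {j : Fin k // j ∉ Set.range σ} = k - r := by
    have h1 : Fintype.card {j : Fin k // j ∈ Set.range σ} = r := by
      have := Set.card_range_of_injective hσ
      rw [Fintype.card_fin] at this
      exact this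
    have h2 := Fintype.card_subtype_compl (fun j : Fin k => j ∈ Set.range σ)
    rw [Fintype.card_fin, h1] at h2
    exact h2
  have h3 : (Fintype.piFinset (fun _ : {j : Fin k // j ∉ Set.range σ} => A)).card =
      A.card ^ (k - r) := by
    rw [Fintype.card_piFinset, Finset.prod_const, Finset.card_univ, hcard]
  rw [← h3]
  refine Finset.card_le_card_of_injOn (fun h j => h j.1) ?_ ?_
  · intro h hh
    have hh' := Finset.mem_filter.mp (Finset.mem_coe.mp hh)
    refine Finset.mem_coe.mpr ?_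
    rw [Fintype.mem_piFinset]
    intro j
    exact Fintype.mem_piFinset.mp hh'.1 j.1
  · intro h hh h' hh' hee
    have e1 := (Finset.mem_filter.mp (Finset.mem_coe.mp hh)).2
    have e2 := (Finset.mem_filter.mp (Finset.mem_coe.mp hh')).2
    funext j
    by_cases hj : j ∈ Set.range σ
    · obtain ⟨i, rfl⟩ := hj
      exact (congrFun e1 i).trans (congrFun e2 i).symm
    · exact congrFun hee ⟨j, hj⟩

/-- Few `k`-tuples have an `r`-subtuple in `Good`. -/
lemma card_bad (r k : ℕ) (A : Finset ℕ) (Good : Finset (Fin r → ℕ)) :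
    ((inj k A).filter (fun h => ∃ σ : Fin r → Fin k, Function.Injective σ ∧
      (fun i => h (σ i)) ∈ Good)).card ≤ k ^ r * (Good.card * A.card ^ (k - r)) := by
  have h1 : (inj k A).filter (fun h => ∃ σ : Fin r → Fin k, Function.Injective σ ∧
      (fun i => h (σ i)) ∈ Good) ⊆
      (Finset.univ.filter (fun σ : Fin r → Fin k => Function.Injective σ)).biUnion (fun σ =>
        Good.biUnion (fun g =>
          (Fintype.piFinset (fun _ : Fin k => A)).filter (fun h => (fun i => h (σ i)) = g))) := by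
    intro h hh
    obtain ⟨hh1, σ, hσ, hG⟩ := Finset.mem_filter.mp hh
    rw [Finset.mem_biUnion]
    refine ⟨σ, Finset.mem_filter.mpr ⟨Finset.mem_univ _, hσ⟩, ?_⟩
    rw [Finset.mem_biUnion]
    refine ⟨_, hG, Finset.mem_filter.mpr ⟨?_, rfl⟩⟩
    rw [Fintype.mem_piFinset]
    exact (mem_inj.mp hh1).1
  refine (Finset.card_le_card h1).trans ?_
  refine Finset.card_biUnion_le.trans ?_
  have h2 : ∀ σ ∈ Finset.univ.filter (fun σ : Fin r → Fin k => Function.Injective σ),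
      (Good.biUnion (fun g => (Fintype.piFinset (fun _ : Fin k => A)).filter
        (fun h => (fun i => h (σ i)) = g))).card ≤ Good.card * A.card ^ (k - r) := by
    intro σ hσ
    refine Finset.card_biUnion_le.trans ?_
    refine (Finset.sum_le_sum fun g _ =>
      card_fiber r k A σ (Finset.mem_filter.mp hσ).2 g).trans ?_
    rw [Finset.sum_const, smul_eq_mul]
  refine (Finset.sum_le_sum h2).trans ?_
  rw [Finset.sum_const, smul_eq_mul]
  refine Nat.mul_le_mul_right _ ?_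
  refine (Finset.card_filter_le _ _).trans ?_
  simp

lemma exists_sub {r k : ℕ} (S : Finset (Fin k)) (h : r ≤ S.card) :
    ∃ σ : Fin r → Fin k, Function.Injective σ ∧ ∀ i, σ i ∈ S := by
  obtain ⟨T, hT, hTc⟩ := Finset.exists_subset_card_eq h
  refine ⟨fun i => T.orderEmbOfFin hTc i, (T.orderEmbOfFin hTc).injective, fun i => ?_⟩
  exact hT (Finset.orderEmbOfFin_mem T hTc i)

end CombinBAux

open CombinBAux

theorem combin_bad (r k : ℕ) (hrk : r ≤ k) (c C c₂ : ℝ) (hc : 0 < c) (hC : 0 < C) (hc₂ : 0 < c₂) :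
    ∃ c' δ₀ : ℝ, 0 < c' ∧ 0 < δ₀ ∧ ∀ (L κ C₁ : ℝ), 0 < L → 0 < κ → κ ≤ 1 → 1 ≤ C₁ →
    ∀ (I A : Finset ℕ) (Pm Ro : ℕ → ℕ → Prop) (X : ℝ) (Q : (Fin k → ℕ) → ℝ) (gg : ℕ → ℕ → ℝ),
    0 < X → (∀ a b, 0 ≤ gg a b) → 2 * k ≤ A.card → κ * L ≤ A.card → (A.card : ℝ) ≤ C₁ * L →
    (∀ b ∈ A, ∑ a ∈ A.erase b, gg a b ≤ C₁ * L) →
    (∀ n b, Pm n b → Ro n b) →
    (∀ h : Fin k → ℕ, Function.Injective h → (∀ i, h i ∈ A) → c₂ / L ^ k ≤ Q h) →
    (∀ h : Fin k → ℕ, Function.Injective h → (∀ i, h i ∈ A) →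
      c * X * Q h ≤ ((I.filter (fun n => (∀ i, Ro n (h i)) ∧
        r ≤ (Finset.univ.filter (fun i => Pm n (h i))).card)).card : ℝ)) →
    (∀ h : Fin k → ℕ, Function.Injective h → (∀ i, h i ∈ A) → ∀ b ∈ A, (∀ i, h i ≠ b) →
      ((I.filter (fun n => (∀ i, Ro n (h i)) ∧ Ro n b)).card : ℝ) ≤
        C * X * Q h * ((∏ i, gg (h i) b) / L)) →
    ∀ Good : Finset (Fin r → ℕ), (Good.card : ℝ) ≤ δ₀ * (A.card : ℝ) ^ r →
    c' * (κ / C₁) ^ (k * (k + 2)) * X ≤
      ((I.filter (fun n => ∃ a : Fin r → ℕ, Function.Injective a ∧ (∀ i, a i ∈ A) ∧ a ∉ Good ∧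
        ∀ i, Pm n (a i))).card : ℝ) := by
  set c' : ℝ := (1 / 2) ^ k / 4 * (c / 2 * c₂) / (4 * C * 2 ^ k / c + k) ^ k with hc'
  have hc'0 : 0 < c' := by positivity
  refine ⟨c', 1 / (4 * 2 ^ k * (k + 1) ^ r), hc'0, by positivity, ?_⟩
  intro L κ C₁ hL0 hκ hκ1 hC₁1 I A Pm Ro X Q gg hX hgg hk h1 h2 hB hPR hQ hlow hup Good hGood
  have hC₁ : 0 < C₁ := by linarith only [hC₁1]
  -- the relative size
  obtain ⟨κ', hκ'⟩ : ∃ κ' : ℝ, κ' = A.card / L := ⟨_, rfl⟩
  have hκκ' : κ ≤ κ' := by rw [hκ', le_div_iff₀ hL0]; exact h1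
  have hκ'0 : 0 < κ' := lt_of_lt_of_le hκ hκκ'
  have hκ'L : κ' * L = A.card := by rw [hκ']; field_simp
  obtain ⟨C₂, hC₂⟩ : ∃ C₂ : ℝ, C₂ = 2 * C₁ ^ (k + 1) / (κ' / 2) ^ k := ⟨_, rfl⟩
  have hC₂0 : 0 < C₂ := by rw [hC₂]; (clear * - hC₁1 hκ'0; positivity)
  obtain ⟨R₀, hR⟩ : ∃ R₀ : ℝ, R₀ = 2 * C * C₂ / c := ⟨_, rfl⟩
  have hR0 : 0 < R₀ := by rw [hR]; (clear * - hc hC hC₂0; positivity)
  set H := (inj k A).filter (fun h => sw A gg h ≤ C₂ * L) with hH
  have hgood := good_lower k A gg hgg κ' C₁ L hκ'0 hC₁ hL0 hk hκ'L.le h2 hB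
  rw [← hC₂, ← hH] at hgood
  -- the tuples without a good subtuple
  set H' := H.filter (fun h => ¬ ∃ σ : Fin r → Fin k, Function.Injective σ ∧
      (fun i => h (σ i)) ∈ Good) with hH'
  have hHk : H ⊆ inj k A := Finset.filter_subset _ _
  have hbad : ((H.filter (fun h => ∃ σ : Fin r → Fin k, Function.Injective σ ∧
      (fun i => h (σ i)) ∈ Good)).card : ℝ) ≤ (κ' / 2) ^ k / 4 * L ^ k := by
    have e1 : (H.filter (fun h => ∃ σ : Fin r → Fin k, Function.Injective σ ∧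
      (fun i => h (σ i)) ∈ Good)).card ≤ k ^ r * (Good.card * A.card ^ (k - r)) :=
      (Finset.card_le_card (Finset.filter_subset_filter _ hHk)).trans (card_bad r k A Good)
    have e2 : ((H.filter (fun h => ∃ σ : Fin r → Fin k, Function.Injective σ ∧
      (fun i => h (σ i)) ∈ Good)).card : ℝ) ≤ (k:ℝ) ^ r * (Good.card * (A.card : ℝ) ^ (k - r)) := by
      exact_mod_cast e1
    refine e2.trans ?_
    have e3 : (Good.card : ℝ) * (A.card : ℝ) ^ (k - r) ≤
        1 / (4 * 2 ^ k * ((k:ℝ) + 1) ^ r) * (A.card : ℝ) ^ k := by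
      calc (Good.card : ℝ) * (A.card : ℝ) ^ (k - r)
          ≤ (1 / (4 * 2 ^ k * ((k:ℝ) + 1) ^ r) * (A.card : ℝ) ^ r) * (A.card : ℝ) ^ (k - r) :=
            mul_le_mul_of_nonneg_right hGood (by (clear * -; positivity))
        _ = 1 / (4 * 2 ^ k * ((k:ℝ) + 1) ^ r) * ((A.card : ℝ) ^ r * (A.card : ℝ) ^ (k - r)) := by
            ring
        _ = _ := by rw [← pow_add, Nat.add_sub_cancel' hrk]
    have e4 : (k:ℝ) ^ r ≤ ((k:ℝ) + 1) ^ r :=
      pow_le_pow_left₀ (Nat.cast_nonneg _) (by linarith) r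
    calc (k:ℝ) ^ r * (Good.card * (A.card : ℝ) ^ (k - r))
        ≤ ((k:ℝ) + 1) ^ r * (1 / (4 * 2 ^ k * ((k:ℝ) + 1) ^ r) * (A.card : ℝ) ^ k) :=
          mul_le_mul e4 e3 (by (clear * -; positivity)) (by (clear * -; positivity))
      _ = (A.card : ℝ) ^ k / (4 * 2 ^ k) := by
          have : (0:ℝ) < ((k:ℝ) + 1) ^ r := by (clear * -; positivity)
          field_simp
      _ = (κ' / 2) ^ k / 4 * L ^ k := by
          rw [← hκ'L, mul_pow, div_pow]
          ring
  have hcard' : (κ' / 2) ^ k / 4 * L ^ k ≤ (H'.card : ℝ) := by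
    have e1 : ((H.filter (fun h => ∃ σ : Fin r → Fin k, Function.Injective σ ∧
      (fun i => h (σ i)) ∈ Good)).card : ℝ) + (H'.card : ℝ) = (H.card : ℝ) := by
      rw [hH']
      exact_mod_cast Finset.card_filter_add_card_filter_not (s := H) _
    have e2 : (κ' / 2) ^ k / 2 * L ^ k = (κ' / 2) ^ k / 4 * L ^ k + (κ' / 2) ^ k / 4 * L ^ k := by
      ring
    linarith only [hgood, hbad, e1]
  -- the integers
  set F' : ℕ → Prop := fun n => ∃ a : Fin r → ℕ, Function.Injective a ∧ (∀ i, a i ∈ A) ∧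
    a ∉ Good ∧ ∀ i, Pm n (a i) with hF'
  have hT : ∀ h ∈ H', T r (I.filter F') Pm Ro h = T r I Pm Ro h := by
    intro h hh
    have hh' := Finset.mem_filter.mp hh
    have hinj := mem_inj.mp (hHk hh'.1)
    unfold T
    rw [Finset.filter_filter]
    refine Finset.filter_congr fun n _ => ?_
    refine ⟨fun h => h.2, fun hn => ⟨?_, hn⟩⟩
    obtain ⟨σ, hσ, hσS⟩ := exists_sub _ hn.2
    refine ⟨fun i => h (σ i), fun i j hij => hσ (hinj.2 hij), fun i => hinj.1 _, fun hG => ?_,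
      fun i => (Finset.mem_filter.mp (hσS i)).2⟩
    exact hh'.2 ⟨σ, hσ, hG⟩
  have hdouble := double r k (I.filter F') A Pm Ro R₀ hR0 H'
    ((Finset.filter_subset _ _).trans (Finset.filter_subset _ _))
  have hLk : 0 < L ^ k := by (clear * - hL0; positivity)
  have heach : ∀ h ∈ H', c / 2 * X * (c₂ / L ^ k) ≤
      (((T r (I.filter F') Pm Ro h).filter (fun n => (other A Ro h n : ℝ) ≤ R₀)).card : ℝ) := by
    intro h hh
    rw [hT h hh]
    have hh2 := (Finset.mem_filter.mp hh).1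
    rw [hH, Finset.mem_filter, mem_inj] at hh2
    have hq := hQ h hh2.1.2 hh2.1.1
    have hq0 : 0 ≤ Q h := le_trans (by (clear * - hc₂ hL0; positivity)) hq
    have hfm := few_many r I A Pm Ro gg h c C C₂ L X (Q h) hc hC hC₂0 hL0 hX hq0 hh2.2
      (hlow h hh2.1.2 hh2.1.1) (hup h hh2.1.2 hh2.1.1)
    rw [← hR] at hfm
    refine le_trans ?_ hfm
    exact mul_le_mul_of_nonneg_left hq (by (clear * - hc hX; positivity))
  have hsum : (H'.card : ℝ) * (c / 2 * X * (c₂ / L ^ k)) ≤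
      ∑ h ∈ H', (((T r (I.filter F') Pm Ro h).filter
        (fun n => (other A Ro h n : ℝ) ≤ R₀)).card : ℝ) := by
    rw [← nsmul_eq_mul, ← Finset.sum_const]
    exact Finset.sum_le_sum heach
  obtain ⟨F, hF⟩ : ∃ F : ℝ, F = ((I.filter F').card : ℝ) := ⟨_, rfl⟩
  have hF0 : 0 ≤ F := by rw [hF]; (clear * -; positivity)
  have hfin : (κ' / 2) ^ k / 4 * (c / 2 * c₂) * X ≤ F * (R₀ + k) ^ k := by
    have e0 : ((((I.filter F').filter
        (fun n => r ≤ (A.filter (fun a => Pm n a)).card)).card : ℕ) : ℝ) ≤ F := by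
      rw [hF]
      exact_mod_cast Finset.card_filter_le _ _
    refine le_trans ?_ (hsum.trans (hdouble.trans
      (mul_le_mul_of_nonneg_right e0 (by (clear * - hR0; positivity)))))
    calc (κ' / 2) ^ k / 4 * (c / 2 * c₂) * X
        = ((κ' / 2) ^ k / 4 * L ^ k) * (c / 2 * X * (c₂ / L ^ k)) := by field_simp
      _ ≤ _ := mul_le_mul_of_nonneg_right hcard' (by (clear * - hc hc₂ hL0 hX; positivity))
  rw [← hF]

  clear hsum heach hdouble hT hcard' hbad hgood
  -- algebra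
  obtain ⟨t, ht⟩ : ∃ t : ℝ, t = C₁ / κ := ⟨_, rfl⟩
  have ht1 : 1 ≤ t := by
    rw [ht, le_div_iff₀ hκ]; linarith only [hκ1, hC₁1]
  have ht0 : 0 < t := by linarith only [ht1]
  have hC₂t : C₂ ≤ 2 * 2 ^ k * t ^ (k + 1) := by
    have e0 : C₂ ≤ 2 * C₁ ^ (k + 1) / (κ / 2) ^ k := by
      rw [hC₂]
      refine div_le_div_of_nonneg_left (by (clear * - hC₁1; positivity)) (by (clear * - hκ; positivity)) ?_
      exact pow_le_pow_left₀ (by (clear * - hκ; positivity)) (by linarith only [hκκ']) k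
    have e1 : 2 * C₁ ^ (k + 1) / (κ / 2) ^ k = 2 * 2 ^ k * (C₁ ^ (k + 1) / κ ^ k) := by
      rw [div_pow]; field_simp
    have e2 : C₁ ^ (k + 1) / κ ^ k ≤ t ^ (k + 1) := by
      rw [ht, div_pow, pow_succ κ k]
      refine div_le_div_of_nonneg_left (by (clear * - hC₁1; positivity)) (by (clear * - hκ; positivity)) ?_
      calc κ ^ k * κ ≤ κ ^ k * 1 := mul_le_mul_of_nonneg_left hκ1 (by (clear * - hκ; positivity))
        _ = κ ^ k := mul_one _
    rw [e1] at e0
    exact e0.trans (mul_le_mul_of_nonneg_left e2 (by (clear * -; positivity)))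
  have hR₀t : R₀ + k ≤ (4 * C * 2 ^ k / c + k) * t ^ (k + 1) := by
    have h3 : R₀ ≤ 4 * C * 2 ^ k / c * t ^ (k + 1) := by
      rw [hR]
      calc 2 * C * C₂ / c ≤ 2 * C * (2 * 2 ^ k * t ^ (k + 1)) / c := by
            refine div_le_div_of_nonneg_right ?_ hc.le
            exact mul_le_mul_of_nonneg_left hC₂t (by (clear * - hC; positivity))
        _ = _ := by ring
    have h4 : (k:ℝ) ≤ k * t ^ (k + 1) := by
      have : 1 ≤ t ^ (k + 1) := one_le_pow₀ ht1
      nlinarith only [this, (Nat.cast_nonneg k : (0:ℝ) ≤ k)]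
    calc R₀ + k ≤ 4 * C * 2 ^ k / c * t ^ (k + 1) + k * t ^ (k + 1) := add_le_add h3 h4
      _ = _ := by ring
  have hκt : (1 / t) ^ k ≤ κ' ^ k := by
    refine pow_le_pow_left₀ (by (clear * - ht1; positivity)) ?_ k
    rw [ht, one_div_div]
    rw [div_le_iff₀ hC₁]
    nlinarith only [hκ, hC₁1, hκκ']
  have hpow : (R₀ + k) ^ k ≤ (4 * C * 2 ^ k / c + k) ^ k * t ^ ((k + 1) * k) := by
    calc (R₀ + k) ^ k ≤ ((4 * C * 2 ^ k / c + k) * t ^ (k + 1)) ^ k :=
          pow_le_pow_left₀ (by (clear * - hR0; positivity)) hR₀t k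
      _ = _ := by rw [mul_pow, ← pow_mul]
  have hmain : (1 / 2) ^ k / 4 * (c / 2 * c₂) * (1 / t) ^ k * X ≤
      F * ((4 * C * 2 ^ k / c + k) ^ k * t ^ ((k + 1) * k)) := by
    calc (1 / 2) ^ k / 4 * (c / 2 * c₂) * (1 / t) ^ k * X
        ≤ (1 / 2) ^ k / 4 * (c / 2 * c₂) * κ' ^ k * X := by
          refine mul_le_mul_of_nonneg_right ?_ hX.le
          exact mul_le_mul_of_nonneg_left hκt (by (clear * - hc hc₂; positivity))
      _ = (κ' / 2) ^ k / 4 * (c / 2 * c₂) * X := by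
          rw [div_pow κ' 2 k, one_div, inv_pow]; ring
      _ ≤ F * (R₀ + k) ^ k := hfin
      _ ≤ _ := mul_le_mul_of_nonneg_left hpow hF0
  have hκC : κ / C₁ = 1 / t := by rw [ht, one_div_div]
  rw [hκC]
  have hexp : (1 / t) ^ (k * (k + 2)) = (1 / t) ^ k * (1 / t) ^ ((k + 1) * k) := by
    rw [← pow_add]; congr 1; ring
  rw [hexp]
  have hden : 0 < (4 * C * 2 ^ k / c + k) ^ k * t ^ ((k + 1) * k) := by
    have : 0 < 4 * C * 2 ^ k / c + k := by (clear * - hc hC; positivity)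
    (clear * - hc hC ht1; positivity)
  have hgoal : c' * ((1 / t) ^ k * (1 / t) ^ ((k + 1) * k)) * X =
      ((1 / 2) ^ k / 4 * (c / 2 * c₂) * (1 / t) ^ k * X) /
        ((4 * C * 2 ^ k / c + k) ^ k * t ^ ((k + 1) * k)) := by
    rw [hc', one_div t, inv_pow, inv_pow]
    have h5 : 0 < (4 * C * 2 ^ k / c + (k:ℝ)) := by (clear * - hc hC; positivity)
    field_simp
  rw [hgoal, div_le_iff₀ hden]
  exact hmain

end Pool.Agent.Lib.MQ
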