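import Pool.Agent.Lib.MP.Main
import Pool.Agent.Lib.MP.Upper
import Pool.Agent.Lib.MQ.CombinB

/-!
# Many integers with a bad r-tuple of primes, for one class of shifts

`dense_bad`: shifts in one residue class modulo `primorial D`; if the set `Good` of `r`-tuples is small,
many integers `n` have an injective `r`-tuple `a ∉ Good` of shifts with all `n + a i` prime.
-/

set_option autoImplicit false

open Finset
open scoped Classical

namespace Pool.Agent.Lib.MQ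

open Pool.Agent.Lib.MT Pool.Agent.HLB Pool.Agent.Lib.MP

namespace DenseBAux

lemma ggd_nonneg (z D d : ℕ) : 0 ≤ ggd z D d := by
  unfold ggd
  refine Finset.prod_nonneg fun p hp => ?_
  have hp' := (Nat.mem_primesLE.1 (Finset.mem_filter.mp hp).1).2
  have : 0 < 1 - 1 / (p:ℝ) := by
    have : (2:ℝ) ≤ p := by exact_mod_cast hp'.two_le
    have h2 : 1 / (p:ℝ) ≤ 1 / 2 := by
      apply one_div_le_one_div_of_le <;> linarith
    linarith
  exact (inv_pos.mpr this).le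

lemma snoc_inj {k : ℕ} (h : Fin k → ℕ) (b : ℕ) (hh : Function.Injective h) (hb : ∀ i, h i ≠ b) :
    Function.Injective (Fin.snoc (α := fun _ => ℕ) h b : Fin (k + 1) → ℕ) := by
  intro x y
  refine Fin.lastCases ?_ (fun i => ?_) x
  · refine Fin.lastCases ?_ (fun j => ?_) y
    · intro _; rfl
    · intro e
      rw [Fin.snoc_last, Fin.snoc_castSucc] at e
      exact absurd e.symm (hb j)
  · refine Fin.lastCases ?_ (fun j => ?_) y
    · intro e
      rw [Fin.snoc_last, Fin.snoc_castSucc] at e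
      exact absurd e (hb i)
    · intro e
      rw [Fin.snoc_castSucc, Fin.snoc_castSucc] at e
      rw [hh e]

end DenseBAux

open DenseBAux

theorem dense_bad : ∃ B : ℕ, ∀ r : ℕ, ∃ D k : ℕ, k ≤ B ^ (r + 1) ∧ 2 ≤ D ∧ r ≤ D ∧
    ∃ c δ₀ : ℝ, 0 < c ∧ 0 < δ₀ ∧ ∀ K₀ : ℕ, ∃ N₀ : ℕ, ∀ N ≥ N₀,
    ∀ A : Finset ℕ, (∀ a ∈ A, (a : ℝ) ≤ N * Real.log N ^ K₀) →
    (∀ a ∈ A, ∀ b ∈ A, a ≡ b [MOD primorial D]) → 2 * k ≤ A.card →
    ∀ κ C₁ : ℝ, 0 < κ → κ ≤ 1 → 1 ≤ C₁ →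
    κ * Real.log N ≤ A.card → (A.card : ℝ) ≤ C₁ * Real.log N →
    (∀ b ∈ A, ∑ a ∈ A.erase b, ggd (zN N) D (Nat.dist a b) ≤ C₁ * Real.log N) →
    ∀ Good : Finset (Fin r → ℕ), (Good.card : ℝ) ≤ δ₀ * (A.card : ℝ) ^ r →
    c * (κ / C₁) ^ (k * (k + 2)) * N ≤ (((Finset.Ioc N (2*N)).filter
      (fun n => ∃ a : Fin r → ℕ, Function.Injective a ∧ (∀ i, a i ∈ A) ∧ a ∉ Good ∧
        ∀ i, (n + a i).Prime)).card : ℝ) := by
  obtain ⟨B, hB⟩ := maynard_two
  refine ⟨B, fun r => ?_⟩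
  obtain ⟨k, c, δ, hkB, hrk, hk1, hc, hδ, hδ1, hM⟩ := hB r
  obtain ⟨C, hC, hU⟩ := rough_upper_two (k + 1) δ hδ
  obtain ⟨c₂, hc₂, hG⟩ := GG_lower k
  obtain ⟨D, hD⟩ : ∃ D : ℕ, D = 2 * (k + 1) := ⟨_, rfl⟩
  obtain ⟨N₂, hN₂⟩ := hU D (by omega)
  obtain ⟨W, hW⟩ : ∃ W : ℕ, W = primorial D := ⟨_, rfl⟩
  have hWpos : 0 < W := by rw [hW]; exact primorial_pos D
  have hWR : (0:ℝ) < W := by exact_mod_cast hWpos
  have hDZD : 0 < DZ D := DZ_pos D
  obtain ⟨c', δ₀, hc', hδ₀, hcomb⟩ := combin_bad r k hrk c (C / DZ D) c₂ hc (by positivity) hc₂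
  refine ⟨D, k, hkB, by omega, by omega, c' / W, δ₀, by positivity, hδ₀, fun K₀ => ?_⟩
  obtain ⟨N₁, hN₁⟩ := hM K₀ D (by omega)
  have hev : ∀ᶠ N : ℕ in Filter.atTop, max 1 (D:ℝ) ≤ Real.log N :=
    (Real.tendsto_log_atTop.comp tendsto_natCast_atTop_atTop).eventually_ge_atTop _
  obtain ⟨N₃, hN₃⟩ := Filter.eventually_atTop.mp (hev.and (PrimeSumTwoAux.shift_facts K₀))
  refine ⟨max (max N₁ N₂) (max N₃ 1), ?_⟩
  intro N hN A hAN hAmod hAk κ C₁ hκ hκ1 hC₁ hAκ hAC hAg Good hGood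
  have h1 : N₁ ≤ N := le_trans (le_trans (le_max_left _ _) (le_max_left _ _)) hN
  have h2 : N₂ ≤ N := le_trans (le_trans (le_max_right _ _) (le_max_left _ _)) hN
  have h3 : N₃ ≤ N := le_trans (le_trans (le_max_left _ _) (le_max_right _ _)) hN
  have h4 : 1 ≤ N := le_trans (le_trans (le_max_right _ _) (le_max_right _ _)) hN
  obtain ⟨hlog, g1, -⟩ := hN₃ N h3
  have hAN2 : ∀ a ∈ A, a ≤ N ^ 2 := by
    intro a ha
    have e1 : (a : ℝ) ≤ (N:ℝ) * N :=
      (hAN a ha).trans (mul_le_mul_of_nonneg_left g1 (Nat.cast_nonneg _))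
    rw [pow_two]
    exact_mod_cast e1
  have hL1 : 1 ≤ Real.log N := le_trans (le_max_left _ _) hlog
  have hLD : (D:ℝ) ≤ Real.log N := le_trans (le_max_right _ _) hlog
  have hLpos : 0 < Real.log N := by linarith only [hL1]
  have hNR : (1:ℝ) ≤ N := by exact_mod_cast h4
  have hDz : D ≤ zN N := Nat.le_floor hLD
  rw [← hW] at hAmod
  rw [← hW] at hN₂ hN₁
  -- the class
  have hne : A.Nonempty := by
    rw [Finset.nonempty_iff_ne_empty]
    rintro rfl
    simp at hAκ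
    have : 0 < κ * Real.log N := by (clear * - hκ hL1; positivity)
    linarith only [hAκ, this]
  obtain ⟨a₀, ha₀⟩ := hne
  obtain ⟨v, hv⟩ : ∃ v : ℕ, v = W * a₀ + 1 - a₀ := ⟨_, rfl⟩
  have hva : v + a₀ = W * a₀ + 1 := by
    have : a₀ ≤ W * a₀ := Nat.le_mul_of_pos_left _ hWpos
    omega
  have hcop : ∀ a ∈ A, Nat.Coprime (v + a) W := by
    intro a ha
    have e1 : v + a ≡ v + a₀ [MOD W] := (hAmod a ha a₀ ha₀).add_left v
    have e2 : v + a₀ ≡ 1 [MOD W] := by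
      rw [hva]
      have : W * a₀ + 1 ≡ 0 + 1 [MOD W] :=
        Nat.ModEq.add_right 1 ((Nat.modEq_zero_iff_dvd).mpr (Dvd.intro _ rfl))
      simp only [zero_add] at this
      exact this
    have e3 := (e1.trans e2).gcd_eq
    rw [Nat.gcd_one_left] at e3
    exact e3
  obtain ⟨z, hz⟩ : ∃ z : ℕ, z = zN N := ⟨_, rfl⟩
  rw [← hz] at hDz hAg
  have hDZz : 0 < DZ z := DZ_pos z
  set Pm : ℕ → ℕ → Prop := fun n b => N < n ∧ (n + b).Prime with hPm
  set Ro : ℕ → ℕ → Prop := fun n b => ∀ p : ℕ, p.Prime → p ∣ n + b → (N:ℝ) ^ δ < p with hRo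
  set I := (Finset.Ioc N (2 * N)).filter (fun n => n ≡ v [MOD W]) with hI
  set Q : (Fin k → ℕ) → ℝ := fun h => GG z W h / (DZ z * Real.log N) ^ k with hQ
  have hNδ : (N:ℝ) ^ δ ≤ N := by
    calc (N:ℝ) ^ δ ≤ (N:ℝ) ^ (1:ℝ) := Real.rpow_le_rpow_of_exponent_le hNR hδ1
      _ = N := Real.rpow_one _
  have hmain := hcomb (Real.log N) κ C₁ hLpos hκ hκ1 hC₁ I A Pm Ro ((N:ℝ) / W) Q
    (fun a b => ggd z D (Nat.dist a b))
    (by (clear * - hWpos h4; positivity)) (fun a b => ggd_nonneg _ _ _) hAk hAκ hAC hAg ?_ ?_ ?_ ?_ Good hGood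
  · -- conclusion
    have e : c' / W * (κ / C₁) ^ (k * (k + 2)) * N
        = c' * (κ / C₁) ^ (k * (k + 2)) * ((N:ℝ) / W) := by ring
    rw [e]
    refine hmain.trans ?_
    rw [Nat.cast_le]
    apply Finset.card_le_card
    intro n hn
    rw [Finset.mem_filter, hI, Finset.mem_filter] at hn
    obtain ⟨⟨hn1, hn2⟩, a, ha1, ha2, ha3, ha4⟩ := hn
    rw [Finset.mem_filter]
    exact ⟨hn1, a, ha1, ha2, ha3, fun i => (ha4 i).2⟩
  · -- Pm → Ro
    intro n b hpm p hp hdvd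
    obtain ⟨hn, hprime⟩ := hpm
    have : p = n + b := (Nat.prime_dvd_prime_iff_eq hp hprime).mp hdvd
    rw [this]
    calc (N:ℝ) ^ δ ≤ N := hNδ
      _ < n := by exact_mod_cast hn
      _ ≤ ((n + b : ℕ) : ℝ) := by push_cast; linarith only [(Nat.cast_nonneg b : (0:ℝ) ≤ b)]
  · -- lower bound for Q
    intro h _ _
    have := hG D z (by omega) hDz h
    rw [← hW] at this
    simp only [hQ]
    rw [mul_pow, div_le_div_iff₀ (by (clear * - hL1; positivity)) (by (clear * - hL1 hDZz; positivity))]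
    calc c₂ * (DZ z ^ k * Real.log N ^ k) = (c₂ * DZ z ^ k) * Real.log N ^ k := by ring
      _ ≤ GG z W h * Real.log N ^ k := mul_le_mul_of_nonneg_right this (by (clear * - hL1; positivity))
  · -- maynard
    intro h hinj hhA
    have hmay := hN₁ N h1 v h hinj (fun i => hAN _ (hhA i)) (fun i => hcop _ (hhA i))
    rw [← hz] at hmay
    refine hmay.trans ?_
    rw [Nat.cast_le]
    apply Finset.card_le_card
    intro n hn
    rw [Finset.mem_filter] at hn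
    obtain ⟨hn1, hn2, hn3, hn4⟩ := hn
    rw [Finset.mem_filter, hI, Finset.mem_filter]
    refine ⟨⟨hn1, hn2⟩, hn3, hn4.trans (Finset.card_le_card ?_)⟩
    intro i hi
    simp only [Finset.mem_filter] at hi ⊢
    exact ⟨hi.1, (Finset.mem_Ioc.mp hn1).1, hi.2⟩
  · -- upper bound
    intro h hinj hhA b hb hhb
    have hup := hN₂ N h2 v (Fin.snoc (α := fun _ => ℕ) h b) (snoc_inj h b hinj hhb) (by
      intro i
      refine Fin.lastCases ?_ (fun j => ?_) i
      · rw [Fin.snoc_last]; exact hAN2 _ hb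
      · rw [Fin.snoc_castSucc]; exact hAN2 _ (hhA j))
    rw [← hz] at hup
    refine le_trans ?_ (hup.trans ?_)
    · rw [Nat.cast_le]
      apply Finset.card_le_card
      intro n hn
      rw [Finset.mem_filter, hI, Finset.mem_filter] at hn
      obtain ⟨⟨hn1, hn2⟩, hn3, hn4⟩ := hn
      rw [Finset.mem_filter]
      refine ⟨hn1, hn2, ?_⟩
      intro i
      refine Fin.lastCases ?_ (fun j => ?_) i
      · rw [Fin.snoc_last]; exact hn4
      · rw [Fin.snoc_castSucc]; exact hn3 j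
    have hsn := GG_snoc k D z (by omega) hDz h b
    rw [← hW] at hsn
    have hpr : 0 ≤ ∏ i, ggd z D (Nat.dist (h i) b) := Finset.prod_nonneg fun i _ => ggd_nonneg _ _ _
    calc C * ((N:ℝ) / W) * (GG z W (Fin.snoc (α := fun _ => ℕ) h b) / (DZ z * Real.log N) ^ (k + 1))
        ≤ C * ((N:ℝ) / W) * ((GG z W h * (DZ z / DZ D) * ∏ i, ggd z D (Nat.dist (h i) b)) /
            (DZ z * Real.log N) ^ (k + 1)) := by gcongr
      _ = C / DZ D * ((N:ℝ) / W) * Q h * ((∏ i, ggd z D (Nat.dist (h i) b)) / Real.log N) := by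
          simp only [hQ]
          rw [pow_succ]
          have hne1 : DZ z ≠ 0 := hDZz.ne'
          have hne2 : DZ D ≠ 0 := hDZD.ne'
          have hne3 : Real.log N ≠ 0 := hLpos.ne'
          have hne4 : (DZ z * Real.log N) ^ k ≠ 0 := pow_ne_zero _ (mul_ne_zero hne1 hne3)
          generalize (DZ z * Real.log N) ^ k = T at hne4 ⊢
          field_simp

end Pool.Agent.Lib.MQ
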