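import Pool.Agent.Lib.HLD.SingTail2
import Pool.Agent.Lib.MP.SelectU
import Pool.Agent.Lib.MQ.DenseB

/-!
# Sets of shifts with bounded mean singular series: an absolute proportion of good tuples

`case_two_bad`: if at most `δ₁ |A| ^ r` of the injective `r`-tuples belong to `Good`, the others have
`∑ cnt ≥ c κ ^ m x`. `good_many`: the admissible injective tuples with
`cnt a x ≥ c κ ^ m SI a x / (log x) ^ r` are at least `δ₁ |A| ^ r` in number.
-/

set_option autoImplicit false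

open Finset Filter

namespace Pool.Agent.Lib.MQ

open Pool.Agent.HL Pool.Agent.HLB Pool.Agent.HLD Pool.Agent.Lib.Sieve4 Pool.Agent.Lib.MP

namespace CaseTwoBAux

open scoped Classical in
/-- the sum of the counting functions over a set of tuples counts every `n` with a tuple of primes -/
lemma card_le_sum_cnt' (r x : ℕ) (T : Finset (Fin r → ℕ)) (S : Finset ℕ) (hS : S ⊆ Icc 1 x)
    (h : ∀ n ∈ S, ∃ a ∈ T, ∀ i, (n + a i).Prime) :
    (S.card : ℝ) ≤ ∑ a ∈ T, (cnt a x : ℝ) := by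
  have h1 : ∑ a ∈ T, (cnt a x : ℝ) =
      ∑ n ∈ Icc 1 x, ((T.filter (fun a => ∀ i, (n + a i).Prime)).card : ℝ) := by
    have e1 : ∀ a ∈ T, (cnt a x : ℝ) =
        ∑ n ∈ Icc 1 x, (if ∀ i, (n + a i).Prime then (1 : ℝ) else 0) := by
      intro a _
      unfold cnt
      rw [Finset.card_filter]
      push_cast
      rfl
    rw [Finset.sum_congr rfl e1, Finset.sum_comm]
    refine Finset.sum_congr rfl fun n _ => ?_
    rw [Finset.card_filter]
    push_cast
    rfl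
  rw [h1]
  have h2 : (S.card : ℝ) = ∑ n ∈ S, (1 : ℝ) := by simp
  rw [h2]
  refine le_trans (Finset.sum_le_sum fun n hn => ?_)
    (Finset.sum_le_sum_of_subset_of_nonneg hS fun n _ _ => Nat.cast_nonneg _)
  obtain ⟨a, ha1, ha2⟩ := h n hn
  have h5 : 1 ≤ (T.filter (fun a => ∀ i, (n + a i).Prime)).card :=
    Finset.card_pos.mpr ⟨a, Finset.mem_filter.mpr ⟨ha1, ha2⟩⟩
  exact_mod_cast h5

/-- Facts about `N = x / 2`. -/
lemma half_facts (K₀ : ℕ) : ∀ᶠ x : ℕ in atTop,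
    (x : ℝ) * Real.log x ^ K₀ ≤ ((x / 2 : ℕ) : ℝ) * Real.log ((x / 2 : ℕ) : ℝ) ^ (K₀ + 1) ∧
      (x : ℝ) * Real.log x ^ K₀ ≤ (x:ℝ) * x := by
  have hL : ∀ᶠ x : ℕ in atTop, 2 * (3 * 2 ^ K₀) ≤ Real.log x :=
    (Real.tendsto_log_atTop.comp tendsto_natCast_atTop_atTop).eventually_ge_atTop _
  filter_upwards [hL, eventually_ge_atTop 16, log_pow_le_self K₀] with x h1 hx16 h2
  set N := x / 2 with hN
  have hNx : N ≤ x := by omega
  have hx0 : (0 : ℝ) < x := by exact_mod_cast (by omega : 0 < x)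
  have hNpos : (0 : ℝ) < N := by exact_mod_cast (by omega : 0 < N)
  have hNr : (x : ℝ) ≤ 3 * N := by
    have h1 : x ≤ 3 * N := by omega
    exact_mod_cast h1
  have hlogx : 0 < Real.log x := Real.log_pos (by exact_mod_cast (by omega : 1 < x))
  have hlogN : 0 < Real.log N := Real.log_pos (by exact_mod_cast (by omega : 1 < N))
  have hlog2 : Real.log x ≤ 2 * Real.log N := by
    have h1 : x ≤ N ^ 2 := by
      have : x ≤ 3 * N := by omega
      nlinarith only [hx16, this]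
    have h2 : Real.log x ≤ Real.log ((N : ℝ) ^ 2) :=
      Real.log_le_log hx0 (by exact_mod_cast h1)
    rwa [Real.log_pow, Nat.cast_ofNat] at h2
  refine ⟨?_, mul_le_mul_of_nonneg_left h2 hx0.le⟩
  calc (x : ℝ) * Real.log x ^ K₀ ≤ (3 * N) * (2 * Real.log N) ^ K₀ :=
        mul_le_mul hNr (pow_le_pow_left₀ hlogx.le hlog2 _) (by positivity) (by positivity)
    _ = N * (Real.log N ^ K₀ * (3 * 2 ^ K₀)) := by rw [mul_pow]; ring
    _ ≤ N * (Real.log N ^ K₀ * Real.log N) := by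
        apply mul_le_mul_of_nonneg_left _ hNpos.le
        apply mul_le_mul_of_nonneg_left _ (by positivity)
        linarith only [h1, hlog2]
    _ = N * Real.log N ^ (K₀ + 1) := by rw [pow_succ]

/-- tuples of shifts in one class modulo `primorial D` are admissible -/
lemma adm_of_class {r D : ℕ} (hr : 1 ≤ r) (hrD : r ≤ D) {a : Fin r → ℕ}
    (h : ∀ i j, a i ≡ a j [MOD primorial D]) (p : ℕ) (hp : p.Prime) : nuI a p < p := by
  unfold nuI
  rcases le_or_gt p D with hpD | hpD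
  · have h1 : (univ.image (fun i => ((a i : ℕ) : ZMod p))).card ≤ 1 := by
      rw [Finset.card_le_one]
      intro u hu v hv
      obtain ⟨i, -, rfl⟩ := Finset.mem_image.mp hu
      obtain ⟨j, -, rfl⟩ := Finset.mem_image.mp hv
      rw [ZMod.natCast_eq_natCast_iff]
      exact (h i j).of_dvd (hp.dvd_primorial_iff.mpr hpD)
    exact h1.trans_lt hp.one_lt
  · have h1 : (univ.image (fun i => ((a i : ℕ) : ZMod p))).card ≤ r := by
      refine Finset.card_image_le.trans ?_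
      simp
    omega

end CaseTwoBAux

open CaseTwoBAux

theorem case_two_bad : ∃ B : ℕ, ∀ r : ℕ, 2 ≤ r → ∀ C₃ : ℝ, 0 < C₃ →
    ∃ (k₀ m : ℕ) (c δ₁ : ℝ), m ≤ B ^ r ∧ 0 < c ∧ 0 < δ₁ ∧ ∀ K₀ : ℕ, ∀ᶠ x : ℕ in atTop,
      ∀ A : Finset ℕ, (∀ a ∈ A, (a : ℝ) ≤ x * Real.log x ^ K₀) → k₀ ≤ A.card →
      ∀ κ : ℝ, 0 < κ → κ ≤ 1 → κ * Real.log x ≤ A.card →
      GW r (zz r x) A (fun _ => 1) ≤ C₃ * Real.log x ^ r →
      ∀ Good : Finset (Fin r → ℕ), (Good.card : ℝ) ≤ δ₁ * (A.card : ℝ) ^ r →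
      ∃ T ⊆ injTuples r A, Disjoint T Good ∧ (∀ a ∈ T, ∀ p : ℕ, p.Prime → nuI a p < p) ∧
        c * κ ^ m * x ≤ ∑ a ∈ T, (cnt a x : ℝ) := by
  classical
  obtain ⟨B, hB⟩ := dense_bad
  refine ⟨6 * (B + 1) ^ 4, fun r hr C₃ hC₃ => ?_⟩
  obtain ⟨D, k, hkB, hD, hrD, c₀, δ₀, hc₀, hδ₀, hdense⟩ := hB r
  obtain ⟨c₁, C', hc₁, hc₁1, hC', hsel⟩ := select_poly r hr D hD C₃ hC₃
  have hC'0 : 0 < C' := by linarith only [hC']
  have hm : 2 * (k * (k + 2)) ≤ (6 * (B + 1) ^ 4) ^ r := by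
    have e1 : k ≤ (B + 1) ^ (2 * r) := by
      refine hkB.trans ((Nat.pow_le_pow_left (Nat.le_succ B) _).trans ?_)
      exact Nat.pow_le_pow_right (by omega) (by omega)
    have e2 : 1 ≤ (B + 1) ^ (2 * r) := Nat.one_le_pow _ _ (by omega)
    have e3 : 2 * (k * (k + 2)) ≤ 6 * ((B + 1) ^ (2 * r) * (B + 1) ^ (2 * r)) := by
      have e4 : k * (k + 2) ≤ (B + 1) ^ (2 * r) * (3 * (B + 1) ^ (2 * r)) :=
        Nat.mul_le_mul e1 (by omega)
      calc 2 * (k * (k + 2)) ≤ 2 * ((B + 1) ^ (2 * r) * (3 * (B + 1) ^ (2 * r))) :=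
            Nat.mul_le_mul_left _ e4
        _ = _ := by ring
    refine e3.trans ?_
    rw [mul_pow, ← pow_add, ← pow_mul]
    refine Nat.mul_le_mul (Nat.le_self_pow (by omega) 6) (le_of_eq ?_)
    congr 1
    ring
  refine ⟨⌈2 * k / c₁⌉₊ + 1, 2 * (k * (k + 2)), c₀ * (c₁ / (2 * C')) ^ (k * (k + 2)) / 3,
    δ₀ * c₁ ^ r, hm, by positivity, by positivity, fun K₀ => ?_⟩
  obtain ⟨N₀, hN₀⟩ := hdense (K₀ + 1)
  filter_upwards [hsel, half_facts K₀, eventually_ge_atTop (2 * N₀ + 16)] with x hselx hhalf hx A hA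
    hk₀ κ hκ hκ1 hcard hGW Good hGood
  obtain ⟨hf1, hf2⟩ := hhalf
  have hx16 : 16 ≤ x := by omega
  have hx0 : (0 : ℝ) < x := by exact_mod_cast (by omega : 0 < x)
  have hlogx : 0 < Real.log x := Real.log_pos (by exact_mod_cast (by omega : 1 < x))
  have hAne : A.Nonempty := by
    rw [← Finset.card_pos]
    omega
  have hApos : (0:ℝ) < A.card := by exact_mod_cast Finset.card_pos.mpr hAne
  obtain ⟨A', hA'A, hmod, hlow, hup, hsum⟩ := hselx A hAne
    (fun a ha => by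
      have h1 := (hA a ha).trans hf2
      have h2 : (a : ℝ) ≤ ((x ^ 2 : ℕ) : ℝ) := by push_cast; nlinarith only [h1]
      exact_mod_cast h2) κ hκ hκ1 hcard hGW
  obtain ⟨N, hN⟩ : ∃ N : ℕ, N = x / 2 := ⟨_, rfl⟩
  rw [← hN] at hf1
  have hN2 : N₀ ≤ N := by omega
  have hNx : N ≤ x := by omega
  have hN8 : 8 ≤ N := by omega
  have hNr : (x : ℝ) / 3 ≤ N := by
    have h1 : x ≤ 3 * N := by omega
    have h2 : (x : ℝ) ≤ 3 * N := by exact_mod_cast h1
    linarith only [h2]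
  have hNpos : (0 : ℝ) < N := by exact_mod_cast (by omega : 0 < N)
  have hlogN : 0 < Real.log N := Real.log_pos (by exact_mod_cast (by omega : 1 < N))
  have hlog1 : Real.log N ≤ Real.log x := Real.log_le_log hNpos (by exact_mod_cast hNx)
  have hlog2 : Real.log x ≤ 2 * Real.log N := by
    have h1 : x ≤ N ^ 2 := by
      have : x ≤ 3 * N := by omega
      nlinarith only [hN8, this]
    have h2 : Real.log x ≤ Real.log ((N : ℝ) ^ 2) :=
      Real.log_le_log hx0 (by exact_mod_cast h1)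
    rwa [Real.log_pow, Nat.cast_ofNat] at h2
  have hCκ : C' ≤ C' / κ := by
    rw [le_div_iff₀ hκ]
    nlinarith only [hC', hκ1]
  have hsum2 : C' / κ * Real.log x ≤ 2 * C' / κ * Real.log N := by
    have := mul_le_mul_of_nonneg_left hlog2 (by (clear * - hC' hκ; positivity) : (0 : ℝ) ≤ C' / κ)
    calc C' / κ * Real.log x ≤ C' / κ * (2 * Real.log N) := this
      _ = 2 * C' / κ * Real.log N := by ring
  have hGood' : (Good.card : ℝ) ≤ δ₀ * (A'.card : ℝ) ^ r := by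
    refine hGood.trans ?_
    rw [mul_assoc, ← mul_pow]
    exact mul_le_mul_of_nonneg_left (pow_le_pow_left₀ (by (clear * - hc₁ hAne hf1 hN hN2 hNx hN8 hNr hNpos hlogN hlog1 hlog2 hsum2; positivity)) hlow r) hδ₀.le
  have key := hN₀ N hN2 A' (fun a ha => (hA a (hA'A ha)).trans hf1) hmod
    (by
      have h1 : (2 * k / c₁ : ℝ) ≤ A.card := by
        refine (Nat.le_ceil _).trans ?_
        exact_mod_cast (by omega : ⌈2 * k / c₁⌉₊ ≤ A.card)
      have h2 : (2 * k : ℝ) ≤ c₁ * A.card := by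
        rw [div_le_iff₀ hc₁] at h1
        linarith only [h1]
      have h3 : ((2 * k : ℕ) : ℝ) ≤ A'.card := by
        push_cast
        exact h2.trans hlow
      exact_mod_cast h3)
    (c₁ * κ) (2 * C' / κ) (by (clear * - hc₁ hκ; positivity)) (by nlinarith only [hc₁, hc₁1, hκ1])
    (by
      have : (1 : ℝ) ≤ C' / κ := hC'.trans hCκ
      calc (1 : ℝ) ≤ C' / κ := this
        _ ≤ 2 * (C' / κ) := by linarith only [hC', hCκ]
        _ = 2 * C' / κ := by ring)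
    (by
      calc c₁ * κ * Real.log N ≤ c₁ * κ * Real.log x :=
            mul_le_mul_of_nonneg_left hlog1 (by (clear * - hc₁ hκ; positivity))
        _ = c₁ * (κ * Real.log x) := by ring
        _ ≤ c₁ * A.card := mul_le_mul_of_nonneg_left hcard hc₁.le
        _ ≤ A'.card := hlow)
    ((hup.trans (mul_le_mul_of_nonneg_right hCκ hlogx.le)).trans hsum2)
    (fun b hb => (hsum (zN N) b hb).trans hsum2) Good hGood'
  refine ⟨(injTuples r A').filter (fun a => a ∉ Good),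
    (Finset.filter_subset _ _).trans (injTuples_mono hA'A), ?_, ?_, ?_⟩
  · rw [Finset.disjoint_left]
    intro a ha
    exact (Finset.mem_filter.mp ha).2
  · intro a ha p hp
    have h1 := mem_injTuples.mp (Finset.mem_filter.mp ha).1
    exact adm_of_class (by omega) hrD (fun i j => hmod _ (h1.1 i) _ (h1.1 j)) p hp
  have h1 := card_le_sum_cnt' r x ((injTuples r A').filter (fun a => a ∉ Good))
    ((Finset.Ioc N (2*N)).filter (fun n => ∃ a : Fin r → ℕ, Function.Injective a ∧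
      (∀ i, a i ∈ A') ∧ a ∉ Good ∧ ∀ i, (n + a i).Prime))
    (by
      intro n hn
      rw [Finset.mem_filter, Finset.mem_Ioc] at hn
      rw [Finset.mem_Icc]
      omega)
    (by
      intro n hn
      obtain ⟨-, a, ha1, ha2, ha3, ha4⟩ := Finset.mem_filter.mp hn
      exact ⟨a, Finset.mem_filter.mpr ⟨mem_injTuples.mpr ⟨ha2, ha1⟩, ha3⟩, ha4⟩)
  have e1 : c₁ * κ / (2 * C' / κ) = c₁ / (2 * C') * κ ^ 2 := by
    field_simp
  have e2 : (c₁ * κ / (2 * C' / κ)) ^ (k * (k + 2)) =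
      (c₁ / (2 * C')) ^ (k * (k + 2)) * κ ^ (2 * (k * (k + 2))) := by
    rw [e1, mul_pow, ← pow_mul]
  rw [e2] at key
  have h2 : c₀ * (c₁ / (2 * C')) ^ (k * (k + 2)) / 3 * κ ^ (2 * (k * (k + 2))) * x ≤
      c₀ * ((c₁ / (2 * C')) ^ (k * (k + 2)) * κ ^ (2 * (k * (k + 2)))) * N := by
    have := mul_le_mul_of_nonneg_left hNr
      (by (clear * - hc₀ hc₁ hC' hκ; positivity) : 0 ≤ c₀ * ((c₁ / (2 * C')) ^ (k * (k + 2)) * κ ^ (2 * (k * (k + 2)))))
    calc c₀ * (c₁ / (2 * C')) ^ (k * (k + 2)) / 3 * κ ^ (2 * (k * (k + 2))) * x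
        = c₀ * ((c₁ / (2 * C')) ^ (k * (k + 2)) * κ ^ (2 * (k * (k + 2)))) * (x / 3) := by ring
      _ ≤ _ := this
  refine h2.trans (key.trans ?_)
  convert h1 using 4

end Pool.Agent.Lib.MQ
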