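import Pool.Agent.Lib.HLD.T1Lower2
import Pool.Agent.Lib.MP.PowerLower

/-!
# The r-th factorial moment of the number of primes, every size of the set of shifts

Shifts up to `x (log x) ^ K0`, `x ≥ x₀(r, ε, K0)`; the constants do not depend on `K0`.

`power_lower2` is `hSN` inside HLD.t1_lower_aux2 (Lib/HLD/T1Lower2.lean) for the weight 1. The sharp
constant comes from Chebyshev's inequality (`cheb`, `fall_sum`).
-/

set_option autoImplicit false

open Finset Filter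

namespace Pool.Agent.Lib.MQ

open Pool.Agent.HL Pool.Agent.HLB Pool.Agent.HLD Pool.Agent.Lib.Sieve4 Pool.Agent.Lib.MP

theorem power_lower2 (r : ℕ) (hr : 2 ≤ r) (K0 : ℕ) {ε : ℝ} (hε : 0 < ε) :
    ∀ᶠ x : ℕ in atTop, ∀ A : Finset ℕ, (∀ a ∈ A, (a : ℝ) ≤ x * Real.log x ^ K0) →
      (1 - ε) * ((x / Real.log x ^ r) * GW r (zz r x) A (fun _ => 1)) ≤
        ∑ n ∈ Icc 1 x, (∑ a ∈ A, ip (n + a)) ^ r := by
  obtain ⟨k, rfl⟩ : ∃ k, r = k + 1 := ⟨r - 1, by omega⟩
  have hk : 1 ≤ k := by omega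
  have hrR : (2:ℝ) ≤ ((k + 1 : ℕ) : ℝ) := by exact_mod_cast hr
  set R : ℝ := ((k + 1 : ℕ) : ℝ) with hR
  have hR0 : 0 < R := by linarith
  set ε1 : ℝ := min (ε / (8 * R)) (1 / 2) with hε1
  have hε1pos : 0 < ε1 := lt_min (by positivity) (by norm_num)
  have hε1le : ε1 ≤ ε / (8 * R) := min_le_left _ _
  have hL : ∀ᶠ x : ℕ in atTop, 8 * R / ε ≤ Real.log x :=
    (Real.tendsto_log_atTop.comp tendsto_natCast_atTop_atTop).eventually_ge_atTop _
  filter_upwards [sum_NB_ge2 sw_holds k K0 hε1pos (k + 2), sum_B_le (k + 1) (k + 2), hL,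
    eventually_ge_atTop 2] with x hx1 hx2 hx3 hx4 A hA
  have hw0 : ∀ a ∈ A, (0:ℝ) ≤ (fun _ : ℕ => (1:ℝ)) a := fun a _ => zero_le_one
  have hxpos : (0:ℝ) < x := by exact_mod_cast (by omega : 0 < x)
  have hLpos : 0 < Real.log x := lt_of_lt_of_le (by positivity) hx3
  have h1 := hx1 A hA (fun _ => 1) hw0
  have h2 := hx2 A (fun _ => 1) hw0
  have hpd : (∑ a ∈ A, (fun _ : ℕ => (1:ℝ)) a) ^ (k + 1) ≤ GW (k + 1) (zz (k + 1) x) A (fun _ => 1) :=
    posdef (k + 1) (zz (k + 1) x) (by omega) A (fun _ => 1) hw0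
  simp only [one_mul] at h1 h2 hpd
  set z := zz (k + 1) x with hz
  set G := GW (k + 1) z A (fun _ => 1) with hG
  set X : ℝ := x / Real.log x ^ (k + 1) with hX
  set b := bb (k + 1) x with hb
  set N : ℕ → ℝ := fun n => ∑ a ∈ A, ip (n + a) with hN
  set Y : ℕ → ℝ := fun n => b * ∑ a ∈ A, ic z (n + a) with hY
  have hXpos : 0 < X := by (clear * - hx4 hLpos; positivity)
  have hb0 : 0 ≤ b := by
    rw [hb]; unfold bb
    exact inv_nonneg.mpr (mul_nonneg (DZ_pos _).le hLpos.le)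
  have hN0 : ∀ n, 0 ≤ N n := fun n => Finset.sum_nonneg fun a ha => ip_nonneg _
  have hY0 : ∀ n, 0 ≤ Y n := fun n =>
    mul_nonneg hb0 (Finset.sum_nonneg fun a ha => ic_nonneg _ _)
  set Wt : ℝ := ∑ a ∈ A, (1:ℝ) with hWt
  have hWt0 : 0 ≤ Wt := Finset.sum_nonneg fun _ _ => zero_le_one
  have hG0 : 0 ≤ G := le_trans (by (clear * -; positivity)) hpd
  -- pointwise tangent
  have htan : ∀ n, R * (N n * Y n ^ k) - (R - 1) * Y n ^ (k + 1) ≤ N n ^ (k + 1) := by
    intro n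
    have h := pow_tangent (k + 1) (by omega) (hN0 n) (hY0 n)
    simp only [Nat.add_sub_cancel] at h
    calc R * (N n * Y n ^ k) - (R - 1) * Y n ^ (k + 1)
        = ((k + 1 : ℕ) : ℝ) * Y n ^ k * N n - (((k + 1 : ℕ) : ℝ) - 1) * Y n ^ (k + 1) := by
          rw [← hR]; ring
      _ ≤ _ := h
  have hsumtan : R * (∑ n ∈ Icc 1 x, N n * Y n ^ k) - (R - 1) * ∑ n ∈ Icc 1 x, Y n ^ (k + 1)
      ≤ ∑ n ∈ Icc 1 x, N n ^ (k + 1) := by
    rw [Finset.mul_sum, Finset.mul_sum, ← Finset.sum_sub_distrib]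
    exact Finset.sum_le_sum fun n _ => htan n
  -- the error term
  have herr : x / Real.log x ^ (k + 2) * Wt ^ (k + 1) ≤ (1 / Real.log x) * (X * G) := by
    have e : (x:ℝ) / Real.log x ^ (k + 2) = (1 / Real.log x) * X := by
      rw [hX, pow_succ (Real.log x) (k + 1)]
      field_simp
    rw [e, mul_assoc]
    gcongr
  have hlogR : 2 * R * (1 / Real.log x) ≤ ε / 4 := by
    rw [mul_one_div, div_le_iff₀ hLpos]
    have := (div_le_iff₀ hε).mp hx3
    nlinarith only [this]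
  have hRε : R * (2 * ε1) ≤ ε / 4 := by
    have := mul_le_mul_of_nonneg_left hε1le (by (clear * - hk; positivity) : 0 ≤ 2 * R)
    calc R * (2 * ε1) = 2 * R * ε1 := by ring
      _ ≤ 2 * R * (ε / (8 * R)) := this
      _ = ε / 4 := by field_simp; ring
  have hXG : 0 ≤ X * G := by (clear * - hx4 hLpos hG0; positivity)
  have h3 : R * ((1 - ε1) * (X * G) - (1 / Real.log x) * (X * G))
      ≤ R * ∑ n ∈ Icc 1 x, N n * Y n ^ k := by
    refine mul_le_mul_of_nonneg_left ?_ hR0.le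
    refine le_trans ?_ h1
    have : (1 - ε1) * X * G = (1 - ε1) * (X * G) := by ring
    rw [this]
    linarith only [herr]
  have h4 : (R - 1) * ∑ n ∈ Icc 1 x, Y n ^ (k + 1) ≤
      (R - 1) * (X * G + (1 / Real.log x) * (X * G)) := by
    refine mul_le_mul_of_nonneg_left ?_ (by linarith only [hrR])
    exact h2.trans (by linarith only [herr])
  have h5 : (1 - ε / 2) * (X * G) ≤ R * ((1 - ε1) * (X * G) - (1 / Real.log x) * (X * G))
      - (R - 1) * (X * G + (1 / Real.log x) * (X * G)) := by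
    have h6 : R * ((1 - ε1) * (X * G) - (1 / Real.log x) * (X * G))
      - (R - 1) * (X * G + (1 / Real.log x) * (X * G))
      = (1 - R * ε1 - (2 * R - 1) * (1 / Real.log x)) * (X * G) := by ring
    rw [h6]
    refine mul_le_mul_of_nonneg_right ?_ hXG
    have h7 : (2 * R - 1) * (1 / Real.log x) ≤ 2 * R * (1 / Real.log x) := by
      have : 0 ≤ 1 / Real.log x := by (clear * - hLpos; positivity)
      nlinarith only [this]
    have h8 : 0 ≤ R * ε1 := by (clear * - hε hk; positivity)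
    linarith only [hε, hlogR, hRε, h7]
  have h8 : (1 - ε) * (X * G) ≤ (1 - ε / 2) * (X * G) :=
    mul_le_mul_of_nonneg_right (by linarith only [hε]) hXG
  linarith only [hsumtan, h3, h4, h5, h8]

/-- `card A ^ r ≤ GW r z A 1`. -/
lemma card_pow_le_GW (r z : ℕ) (hr : 1 ≤ r) (A : Finset ℕ) :
    (A.card : ℝ) ^ r ≤ GW r z A (fun _ => 1) := by
  have h := posdef r z hr A (fun _ => 1) (fun _ _ => zero_le_one)
  have e : ∑ a ∈ A, (fun _ : ℕ => (1:ℝ)) a = A.card := by simp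
  rw [e] at h
  exact h

theorem mean_lower (K0 : ℕ) {ε : ℝ} (hε : 0 < ε) :
    ∀ᶠ x : ℕ in atTop, ∀ A : Finset ℕ, (∀ a ∈ A, (a : ℝ) ≤ x * Real.log x ^ K0) →
      (1 - ε) * (x * (A.card / Real.log x)) ≤ ∑ n ∈ Icc 1 x, ∑ a ∈ A, ip (n + a) := by
  have hL : ∀ᶠ x : ℕ in atTop, 2 / ε ≤ Real.log x :=
    (Real.tendsto_log_atTop.comp tendsto_natCast_atTop_atTop).eventually_ge_atTop _
  filter_upwards [sum_NB_ge2 sw_holds 0 K0 (ε := min (ε / 2) 1) (by positivity) 2, hL,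
    eventually_ge_atTop 2] with x hx1 hx3 hx4 A hA
  have hxpos : (0:ℝ) < x := by exact_mod_cast (by omega : 0 < x)
  have hLpos : 0 < Real.log x := lt_of_lt_of_le (by positivity) hx3
  have h1 := hx1 A hA (fun _ => 1) (fun a _ => zero_le_one)
  simp only [one_mul, zero_add, pow_zero, mul_one, pow_one] at h1
  have hG := card_pow_le_GW 1 (zz 1 x) le_rfl A
  rw [pow_one] at hG
  have hW : ∑ a ∈ A, (1:ℝ) = A.card := by simp
  rw [hW] at h1
  refine le_trans ?_ h1
  have e1 : min (ε / 2) 1 ≤ ε / 2 := min_le_left _ _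
  have e2 : min (ε / 2) 1 ≤ 1 := min_le_right _ _
  have h2 : (1 - min (ε / 2) 1) * (x / Real.log x) * (A.card : ℝ) ≤
      (1 - min (ε / 2) 1) * (x / Real.log x) * GW 1 (zz 1 x) A (fun _ => 1) := by
    refine mul_le_mul_of_nonneg_left hG ?_
    have : 0 ≤ 1 - min (ε / 2) 1 := by linarith only [e2]
    positivity
  have h3 : (x:ℝ) / Real.log x ^ 2 * A.card = (1 / Real.log x) * (x / Real.log x * A.card) := by
    field_simp
  have h4 : 1 / Real.log x ≤ ε / 2 := by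
    rw [div_le_iff₀ hLpos]
    have := (div_le_iff₀ hε).mp hx3
    linarith only [this]
  have h5 : 0 ≤ (x:ℝ) / Real.log x * A.card := by positivity
  have h6 : (1 - ε) * ((x:ℝ) / Real.log x * A.card) ≤
      (1 - min (ε / 2) 1 - 1 / Real.log x) * (x / Real.log x * A.card) :=
    mul_le_mul_of_nonneg_right (by linarith only [e1, h4]) h5
  have h7 : (1 - ε) * ((x:ℝ) * (A.card / Real.log x)) = (1 - ε) * ((x:ℝ) / Real.log x * A.card) := by
    ring
  rw [h7, h3]
  have h8 : (1 - min (ε / 2) 1 - 1 / Real.log x) * ((x:ℝ) / Real.log x * A.card)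
      = (1 - min (ε / 2) 1) * (x / Real.log x) * (A.card : ℝ)
        - 1 / Real.log x * (x / Real.log x * A.card) := by ring
  rw [h8] at h6
  linarith only [h2, h6]

lemma sum_cnt_eq (r x : ℕ) (A : Finset ℕ) :
    ∑ a ∈ injTuples r A, (cnt a x : ℝ)
      = ∑ n ∈ Icc 1 x, ∑ a ∈ injTuples r A, ∏ i, ip (n + a i) := by
  rw [Finset.sum_comm]
  refine Finset.sum_congr rfl fun a _ => ?_
  rw [cnt_eq]

theorem case_one2 (r : ℕ) (hr : 2 ≤ r) : ∃ C₃ c : ℝ, 0 < C₃ ∧ 0 < c ∧ ∀ K0 : ℕ,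
    ∀ᶠ x : ℕ in atTop, ∀ A : Finset ℕ, (∀ a ∈ A, (a : ℝ) ≤ x * Real.log x ^ K0) →
      C₃ * x ≤ (x / Real.log x ^ r) * GW r (zz r x) A (fun _ => 1) →
      c * ((x / Real.log x ^ r) * GW r (zz r x) A (fun _ => 1)) ≤
        ∑ a ∈ injTuples r A, (cnt a x : ℝ) := by
  have hr1 : (0:ℝ) < r := by exact_mod_cast (by omega : 0 < r)
  refine ⟨(r:ℝ) ^ r * 2 ^ (r + 2), (2 ^ (r + 2))⁻¹, by positivity, by positivity, fun K0 => ?_⟩
  filter_upwards [power_lower2 r hr K0 (ε := 1 / 2) (by norm_num)] with x hx A hA hC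
  have h1 := hx A hA
  set S : ℝ := (x / Real.log x ^ r) * GW r (zz r x) A (fun _ => 1) with hS
  have h2 : ∑ n ∈ Icc 1 x, (((∑ a ∈ A, ip (n + a)) / 2) ^ r - (r:ℝ) ^ r) ≤
      ∑ n ∈ Icc 1 x, ∑ a ∈ injTuples r A, ∏ i, ip (n + a i) :=
    Finset.sum_le_sum fun n _ =>
      inj_lower r A (fun a => ip (n + a)) (fun a _ => ⟨ip_nonneg _, ip_le_one _⟩)
  rw [Finset.sum_sub_distrib, Finset.sum_const, Nat.card_Icc, Nat.add_sub_cancel, nsmul_eq_mul] at h2
  have h3 : ∑ n ∈ Icc 1 x, ((∑ a ∈ A, ip (n + a)) / 2) ^ r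
      = (2 ^ r)⁻¹ * ∑ n ∈ Icc 1 x, (∑ a ∈ A, ip (n + a)) ^ r := by
    rw [Finset.mul_sum]
    refine Finset.sum_congr rfl fun n _ => ?_
    rw [div_pow]
    ring
  rw [h3] at h2
  rw [sum_cnt_eq]
  refine le_trans ?_ h2
  have h4 : (2 ^ r : ℝ)⁻¹ * ((1 - 1 / 2) * S) ≤
      (2 ^ r : ℝ)⁻¹ * ∑ n ∈ Icc 1 x, (∑ a ∈ A, ip (n + a)) ^ r :=
    mul_le_mul_of_nonneg_left h1 (by positivity)
  have h5 : (x:ℝ) * (r:ℝ) ^ r ≤ (2 ^ (r + 2) : ℝ)⁻¹ * S := by
    rw [inv_mul_eq_div, le_div_iff₀ (by positivity)]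
    calc (x:ℝ) * (r:ℝ) ^ r * 2 ^ (r + 2) = (r:ℝ) ^ r * 2 ^ (r + 2) * x := by ring
      _ ≤ S := hC
  have h6 : (2 ^ r : ℝ)⁻¹ * ((1 - 1 / 2) * S) = 2 * ((2 ^ (r + 2) : ℝ)⁻¹ * S) := by
    rw [pow_add]
    field_simp
    ring
  linarith only [h4, h5, h6]

/-- `∏_{j < r} (1 - j / λ)_+`. -/
noncomputable def fprod (r : ℕ) (l : ℝ) : ℝ := ∏ j ∈ range r, max 0 (1 - j / l)

/-- the factorial power `∏_{j < r} (N - j)_+` -/
noncomputable def fall (r : ℕ) (N : ℝ) : ℝ := ∏ j ∈ range r, max 0 (N - j)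

lemma fall_nonneg (r : ℕ) (N : ℝ) : 0 ≤ fall r N := prod_nonneg fun _ _ => le_max_left _ _

lemma fall_succ (r : ℕ) (N : ℝ) : fall (r + 1) N = fall r N * max 0 (N - r) := by
  unfold fall
  rw [prod_range_succ]

lemma fall_mono (r : ℕ) {N M : ℝ} (h : N ≤ M) : fall r N ≤ fall r M := by
  unfold fall
  refine prod_le_prod (fun _ _ => le_max_left _ _) fun j _ => ?_
  exact max_le_max le_rfl (by linarith)

lemma fprod_nonneg (r : ℕ) (l : ℝ) : 0 ≤ fprod r l := prod_nonneg fun _ _ => le_max_left _ _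

lemma fprod_succ (r : ℕ) (l : ℝ) : fprod (r + 1) l = fprod r l * max 0 (1 - r / l) := by
  unfold fprod
  rw [prod_range_succ]

lemma fprod_le_one (r : ℕ) {l : ℝ} (hl : 0 < l) : fprod r l ≤ 1 := by
  unfold fprod
  refine prod_le_one (fun _ _ => le_max_left _ _) fun j _ => ?_
  have : 0 ≤ (j:ℝ) / l := by positivity
  exact max_le zero_le_one (by linarith)

/-- Chebyshev's inequality against the mean value. -/
lemma cheb (s : Finset ℕ) (N h : ℕ → ℝ) (l : ℝ) (hh : ∀ n ∈ s, 0 ≤ h n)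
    (hmono : ∀ n ∈ s, ∀ m ∈ s, N n ≤ N m → h n ≤ h m) (hl : l * s.card ≤ ∑ n ∈ s, N n) :
    l * ∑ n ∈ s, h n ≤ ∑ n ∈ s, N n * h n := by
  rcases s.eq_empty_or_nonempty with rfl | hs
  · simp
  have hm : MonovaryOn N h s := by
    intro n hn m hm hlt
    by_contra hc
    exact absurd (hmono m hm n hn (not_le.mp hc).le) (not_le.mpr hlt)
  have h1 := hm.sum_mul_sum_le_card_mul_sum
  have hc : (0:ℝ) < s.card := by exact_mod_cast hs.card_pos
  have h2 : 0 ≤ ∑ n ∈ s, h n := sum_nonneg hh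
  have h3 : (l * s.card) * ∑ n ∈ s, h n ≤ s.card * ∑ n ∈ s, N n * h n :=
    (mul_le_mul_of_nonneg_right hl h2).trans h1
  have h4 : s.card * (l * ∑ n ∈ s, h n) ≤ s.card * ∑ n ∈ s, N n * h n := by linarith
  exact le_of_mul_le_mul_left h4 hc

/-- Power sums against factorial power sums. -/
lemma fall_sum (s : Finset ℕ) (N : ℕ → ℝ) (hN : ∀ n ∈ s, 0 ≤ N n) (l : ℝ) (hl0 : 0 < l)
    (hl : l * s.card ≤ ∑ n ∈ s, N n) (j : ℕ) : ∀ i : ℕ,
    fprod j l * ∑ n ∈ s, N n ^ (i + j) ≤ ∑ n ∈ s, N n ^ i * fall j (N n) := by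
  induction j with
  | zero =>
    intro i
    simp [fprod, fall]
  | succ j ih =>
    intro i
    have h1 := ih (i + 1)
    set a : ℝ := ∑ n ∈ s, N n ^ i * fall j (N n) with ha
    set b : ℝ := ∑ n ∈ s, N n ^ (i + 1) * fall j (N n) with hb
    have hb0 : 0 ≤ b := sum_nonneg fun n hn => mul_nonneg (pow_nonneg (hN n hn) _) (fall_nonneg _ _)
    have hc : l * a ≤ b := by
      have := cheb s N (fun n => N n ^ i * fall j (N n)) l
        (fun n hn => mul_nonneg (pow_nonneg (hN n hn) _) (fall_nonneg _ _))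
        (fun n hn m hm hnm => mul_le_mul (pow_le_pow_left₀ (hN n hn) hnm i) (fall_mono j hnm)
          (fall_nonneg _ _) (pow_nonneg (hN m hm) _)) hl
      refine this.trans (le_of_eq ?_)
      refine sum_congr rfl fun n _ => ?_
      rw [pow_succ]
      ring
    have h2 : b - j * a ≤ ∑ n ∈ s, N n ^ i * fall (j + 1) (N n) := by
      rw [ha, hb, mul_sum, ← sum_sub_distrib]
      refine sum_le_sum fun n hn => ?_
      rw [fall_succ]
      have h3 : N n - j ≤ max 0 (N n - j) := le_max_right _ _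
      have h4 : 0 ≤ N n ^ i * fall j (N n) := mul_nonneg (pow_nonneg (hN n hn) _) (fall_nonneg _ _)
      have h5 := mul_le_mul_of_nonneg_left h3 h4
      calc N n ^ (i + 1) * fall j (N n) - j * (N n ^ i * fall j (N n))
          = N n ^ i * fall j (N n) * (N n - j) := by rw [pow_succ]; ring
        _ ≤ _ := by rw [← mul_assoc]; exact h5
    have h6 : (1 - j / l) * b ≤ ∑ n ∈ s, N n ^ i * fall (j + 1) (N n) := by
      refine le_trans ?_ h2
      have h7 : (j:ℝ) * a ≤ j / l * b := by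
        have : a ≤ b / l := by rw [le_div_iff₀ hl0]; linarith
        calc (j:ℝ) * a ≤ j * (b / l) := mul_le_mul_of_nonneg_left this (Nat.cast_nonneg j)
          _ = _ := by ring
      linarith
    have h8 : max 0 (1 - j / l) * b ≤ ∑ n ∈ s, N n ^ i * fall (j + 1) (N n) := by
      rcases le_total 0 (1 - j / l) with h | h
      · rw [max_eq_right h]; exact h6
      · rw [max_eq_left h, zero_mul]
        exact sum_nonneg fun n hn => mul_nonneg (pow_nonneg (hN n hn) _) (fall_nonneg _ _)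
    refine le_trans ?_ h8
    rw [fprod_succ]
    have h9 : ∑ n ∈ s, N n ^ (i + (j + 1)) = ∑ n ∈ s, N n ^ (i + 1 + j) :=
      sum_congr rfl fun n _ => by congr 1; omega
    rw [h9, mul_comm (fprod j l), mul_assoc]
    exact mul_le_mul_of_nonneg_left h1 (le_max_left _ _)

/-- The factorial power is below the number of injective tuples. -/
lemma fall_le_inj (r : ℕ) (A : Finset ℕ) (v : ℕ → ℝ) (hv : ∀ a ∈ A, 0 ≤ v a ∧ v a ≤ 1) :
    fall r (∑ a ∈ A, v a) ≤ ∑ a ∈ injTuples r A, ∏ i, v (a i) := by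
  induction r with
  | zero =>
    have h0 : ∑ a ∈ injTuples 0 A, ∏ i, v (a i) = 1 := by
      have : injTuples 0 A = {Fin.elim0} := by
        ext b
        rw [mem_injTuples, mem_singleton]
        constructor
        · intro _
          exact Subsingleton.elim _ _
        · intro _
          exact ⟨fun i => i.elim0, fun i => i.elim0⟩
      rw [this]
      simp
    rw [h0]
    simp [fall]
  | succ r ih =>
    have h0 : 0 ≤ ∑ a ∈ injTuples (r + 1) A, ∏ i, v (a i) :=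
      sum_nonneg fun a ha => prod_nonneg fun i _ => (hv _ ((mem_injTuples.mp ha).1 i)).1
    rw [fall_succ]
    rcases le_total 0 ((∑ a ∈ A, v a) - r) with h | h
    · rw [max_eq_right h, mul_comm]
      exact (mul_le_mul_of_nonneg_left ih h).trans (inj_step' r A v hv)
    · rw [max_eq_left h, mul_zero]
      exact h0

/-- Uniform continuity of `fprod` in the logarithm. -/
lemma fprod_cont (r : ℕ) {l δ : ℝ} (hl : 0 < l) (hδ0 : 0 < δ) (hδ : δ ≤ 1 / 2) :
    fprod r l - 2 * δ * r ≤ fprod r ((1 - δ) * l) := by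
  have hl' : 0 < (1 - δ) * l := mul_pos (by linarith) hl
  induction r with
  | zero => simp [fprod]
  | succ r ih =>
    rw [fprod_succ, fprod_succ]
    have h1 : max 0 (1 - r / l) - max 0 (1 - r / ((1 - δ) * l)) ≤ 2 * δ := by
      rcases le_total (1 - (r:ℝ) / l) 0 with h | h
      · rw [max_eq_left h]
        have := le_max_left (0:ℝ) (1 - r / ((1 - δ) * l))
        linarith
      · rw [max_eq_right h]
        have h2 := le_max_right (0:ℝ) (1 - r / ((1 - δ) * l))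
        have h3 : (r:ℝ) / ((1 - δ) * l) - r / l = (r / l) * (δ / (1 - δ)) := by
          have : (1 - δ) ≠ 0 := by linarith
          field_simp
          ring
        have h4 : δ / (1 - δ) ≤ 2 * δ := by
          rw [div_le_iff₀ (by linarith)]
          nlinarith only [hδ0, hδ]
        have h5 : (r:ℝ) / l * (δ / (1 - δ)) ≤ 1 * (2 * δ) :=
          mul_le_mul (by linarith) h4 (div_nonneg hδ0.le (by linarith)) zero_le_one
        linarith
    have h6 : max 0 (1 - (r:ℝ) / ((1 - δ) * l)) ≤ 1 := by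
      have : 0 ≤ (r:ℝ) / ((1 - δ) * l) := by positivity
      exact max_le zero_le_one (by linarith)
    have h7 : 0 ≤ max 0 (1 - (r:ℝ) / ((1 - δ) * l)) := le_max_left _ _
    have h8 := fprod_le_one r hl
    have h9 := fprod_nonneg r l
    have h10 : fprod r l * (max 0 (1 - r / l) - max 0 (1 - r / ((1 - δ) * l))) ≤ 1 * (2 * δ) := by
      have h11 : 0 ≤ max 0 (1 - (r:ℝ) / l) - max 0 (1 - r / ((1 - δ) * l)) := by
        have : (r:ℝ) / l ≤ r / ((1 - δ) * l) := by
          refine div_le_div_of_nonneg_left (Nat.cast_nonneg r) hl' ?_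
          nlinarith only [hl, hδ0]
        have := max_le_max (le_refl (0:ℝ)) (by linarith : 1 - (r:ℝ) / ((1 - δ) * l) ≤ 1 - r / l)
        linarith only [this]
      exact mul_le_mul h8 h1 h11 zero_le_one
    have h12 : (fprod r l - fprod r ((1 - δ) * l)) * max 0 (1 - (r:ℝ) / ((1 - δ) * l)) ≤
        2 * δ * r := by
      have h13 : (fprod r l - fprod r ((1 - δ) * l)) ≤ 2 * δ * r := by linarith
      have h14 : 0 ≤ 2 * δ * r := by positivity
      calc (fprod r l - fprod r ((1 - δ) * l)) * max 0 (1 - (r:ℝ) / ((1 - δ) * l))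
          ≤ 2 * δ * r * max 0 (1 - (r:ℝ) / ((1 - δ) * l)) := mul_le_mul_of_nonneg_right h13 h7
        _ ≤ 2 * δ * r * 1 := mul_le_mul_of_nonneg_left h6 h14
        _ = _ := mul_one _
    push_cast
    linarith only [h10, h12]

theorem sharp_lower (r : ℕ) (hr : 2 ≤ r) (K0 : ℕ) {ε : ℝ} (hε : 0 < ε) :
    ∀ᶠ x : ℕ in atTop, ∀ A : Finset ℕ, (∀ a ∈ A, (a : ℝ) ≤ x * Real.log x ^ K0) →
      A.Nonempty →
      (fprod r (A.card / Real.log x) - ε) *
          ((x / Real.log x ^ r) * GW r (zz r x) A (fun _ => 1))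
        ≤ ∑ a ∈ injTuples r A, (cnt a x : ℝ) := by
  have hr1 : (0:ℝ) < r := by exact_mod_cast (by omega : 0 < r)
  set δ : ℝ := min (ε / (4 * r)) (1 / 2) with hδ
  have hδ0 : 0 < δ := lt_min (by positivity) (by norm_num)
  have hδ2 : δ ≤ 1 / 2 := min_le_right _ _
  have hδr : 2 * δ * r ≤ ε / 2 := by
    have h1 : δ ≤ ε / (4 * r) := min_le_left _ _
    calc 2 * δ * r = (2 * r) * δ := by ring
      _ ≤ (2 * r) * (ε / (4 * r)) := mul_le_mul_of_nonneg_left h1 (by positivity)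
      _ = ε / 2 := by field_simp; ring
  filter_upwards [power_lower2 r hr K0 (ε := ε / 2) (by positivity), mean_lower K0 hδ0,
    eventually_ge_atTop 2] with x hx1 hx2 hx4 A hA hAne
  have h1 := hx1 A hA
  have h2 := hx2 A hA
  have hxpos : (0:ℝ) < x := by exact_mod_cast (by omega : 0 < x)
  have hLpos : 0 < Real.log x := Real.log_pos (by exact_mod_cast (by omega : 1 < x))
  have hcard : (0:ℝ) < A.card := by exact_mod_cast hAne.card_pos
  set l : ℝ := A.card / Real.log x with hl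
  have hl0 : 0 < l := by positivity
  have hl' : 0 < (1 - δ) * l := mul_pos (by linarith only [hδ0, hδ2]) hl0
  set S : ℝ := (x / Real.log x ^ r) * GW r (zz r x) A (fun _ => 1) with hS
  have hS0 : 0 ≤ S := by
    have := card_pow_le_GW r (zz r x) (by omega) A
    have h3 : (0:ℝ) ≤ GW r (zz r x) A (fun _ => 1) := le_trans (by positivity) this
    positivity
  set N : ℕ → ℝ := fun n => ∑ a ∈ A, ip (n + a) with hN
  have hN0 : ∀ n ∈ Icc 1 x, 0 ≤ N n := fun n _ => Finset.sum_nonneg fun a ha => ip_nonneg _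
  have hmean : ((1 - δ) * l) * (Icc 1 x).card ≤ ∑ n ∈ Icc 1 x, N n := by
    rw [Nat.card_Icc, Nat.add_sub_cancel]
    calc ((1 - δ) * l) * x = (1 - δ) * (x * l) := by ring
      _ ≤ _ := h2
  have h3 := fall_sum (Icc 1 x) N hN0 _ hl' hmean r 0
  simp only [zero_add, pow_zero, one_mul] at h3
  have h4 : ∑ n ∈ Icc 1 x, fall r (N n) ≤ ∑ a ∈ injTuples r A, (cnt a x : ℝ) := by
    rw [sum_cnt_eq]
    exact Finset.sum_le_sum fun n _ =>
      fall_le_inj r A (fun a => ip (n + a)) (fun a _ => ⟨ip_nonneg _, ip_le_one _⟩)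
  refine le_trans ?_ (h3.trans h4)
  have h5 := fprod_cont r hl0 hδ0 hδ2
  have h6 := fprod_nonneg r ((1 - δ) * l)
  have h7 := fprod_le_one r hl'
  have h8 : fprod r ((1 - δ) * l) * ((1 - ε / 2) * S) ≤
      fprod r ((1 - δ) * l) * ∑ n ∈ Icc 1 x, N n ^ r := mul_le_mul_of_nonneg_left h1 h6
  refine le_trans ?_ h8
  have h9 : fprod r l - ε ≤ fprod r ((1 - δ) * l) * (1 - ε / 2) := by
    have : fprod r ((1 - δ) * l) * (ε / 2) ≤ 1 * (ε / 2) :=
      mul_le_mul_of_nonneg_right h7 (by (clear * - hε; positivity))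
    linarith only [hδr, h5, this]
  calc (fprod r l - ε) * S ≤ fprod r ((1 - δ) * l) * (1 - ε / 2) * S :=
        mul_le_mul_of_nonneg_right h9 hS0
    _ = _ := by ring

end Pool.Agent.Lib.MQ
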