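import Pool.Agent.Lib.HLB.T1Main
import Pool.Agent.Lib.MQ.CaseTwoB
import Pool.Agent.Lib.MQ.Sharp

/-!
# Every set of shifts: assembly

`good_many`: sets of shifts with bounded mean singular series.
`every_set`: all sets of at least `k₀` shifts, and the same tuples for infinitely many `x`.
-/

set_option autoImplicit false

open Finset Filter

namespace Pool.Agent.Lib.MQ

open Pool.Agent.HL Pool.Agent.HLB Pool.Agent.HLD Pool.Agent.Lib.Sieve4 Pool.Agent.Lib.MP

open scoped Classical in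
/-- the admissible injective tuples from `A` with at least `c` times the predicted count -/
noncomputable def goodSet (r x : ℕ) (A : Finset ℕ) (c : ℝ) : Finset (Fin r → ℕ) :=
  (injTuples r A).filter (fun a => (∀ p : ℕ, p.Prime → nuI a p < p) ∧
     c * SI a * (x / Real.log x ^ r) ≤ cnt a x)

lemma mem_goodSet {r x : ℕ} {A : Finset ℕ} {c : ℝ} {a : Fin r → ℕ} :
    a ∈ goodSet r x A c ↔ a ∈ injTuples r A ∧ (∀ p : ℕ, p.Prime → nuI a p < p) ∧
      c * SI a * (x / Real.log x ^ r) ≤ cnt a x := by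
  classical
  unfold goodSet
  rw [Finset.mem_filter]

lemma goodSet_mono {r x : ℕ} {A : Finset ℕ} {c c' : ℝ} (h : c ≤ c')
    (hX : 0 ≤ (x:ℝ) / Real.log x ^ r) : goodSet r x A c' ⊆ goodSet r x A c := by
  intro a ha
  rw [mem_goodSet] at ha ⊢
  refine ⟨ha.1, ha.2.1, le_trans ?_ ha.2.2⟩
  have hSI := SI_nonneg a (mem_injTuples.mp ha.1).2
  exact mul_le_mul_of_nonneg_right (mul_le_mul_of_nonneg_right h hSI) hX

lemma sum_SI_le (r : ℕ) (hr : 1 ≤ r) (K₀ : ℕ) {ε : ℝ} (hε : 0 < ε) : ∀ᶠ x : ℕ in atTop,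
    ∀ A : Finset ℕ, (∀ a ∈ A, (a : ℝ) ≤ x * Real.log x ^ K₀) →
    ∑ a ∈ injTuples r A, SI a ≤ (1 + ε) * GW r (zz r x) A (fun _ => 1) := by
  filter_upwards [sing_tail3 r r K₀ hr hε] with x hst A hA
  have h3 : ∑ a ∈ injTuples r A, SI a ≤
      ∑ a ∈ injTuples r A, (1 + ε) * ((∏ i : Fin r, (1:ℝ)) * SZ (zz r x) a) := by
    refine Finset.sum_le_sum fun a ha => ?_
    have hmem := mem_injTuples.mp ha
    have h4 := hst (Fin r) a (Fintype.card_fin r) hmem.2 (fun i => hA _ (hmem.1 i))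
    rw [Finset.prod_const_one, one_mul]
    exact h4
  refine h3.trans ?_
  rw [← Finset.mul_sum]
  unfold GW
  refine mul_le_mul_of_nonneg_left ?_ (by positivity)
  refine Finset.sum_le_sum_of_subset_of_nonneg (injTuples_subset r A) fun a ha _ => ?_
  exact mul_nonneg (Finset.prod_nonneg fun i _ => zero_le_one) (SZ_nonneg _ _)

theorem good_many : ∃ B : ℕ, ∀ r : ℕ, 2 ≤ r → ∀ C₃ : ℝ, 0 < C₃ →
    ∃ (k₀ m : ℕ) (c δ₁ : ℝ), m ≤ B ^ r ∧ 0 < c ∧ 0 < δ₁ ∧ ∀ K₀ : ℕ, ∀ᶠ x : ℕ in atTop,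
      ∀ A : Finset ℕ, (∀ a ∈ A, (a : ℝ) ≤ x * Real.log x ^ K₀) → k₀ ≤ A.card →
      ∀ κ : ℝ, 0 < κ → κ ≤ 1 → κ * Real.log x ≤ A.card →
      GW r (zz r x) A (fun _ => 1) ≤ C₃ * Real.log x ^ r →
      δ₁ * (A.card : ℝ) ^ r ≤ ((goodSet r x A (c * κ ^ m)).card : ℝ) ∧
      c * κ ^ m * ((x / Real.log x ^ r) * GW r (zz r x) A (fun _ => 1)) ≤
        ∑ a ∈ injTuples r A, (cnt a x : ℝ) := by
  obtain ⟨B, hB⟩ := case_two_bad
  refine ⟨B, fun r hr C₃ hC₃ => ?_⟩
  obtain ⟨k₀, m, c₂, δ₁, hm, hc₂, hδ₁, h⟩ := hB r hr C₃ hC₃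
  refine ⟨k₀, m, c₂ / (4 * C₃), δ₁, hm, by positivity, hδ₁, fun K₀ => ?_⟩
  filter_upwards [h K₀, sum_SI_le r (by omega) K₀ (ε := 1) one_pos, eventually_ge_atTop 3]
    with x hx hSI hx3 A hA hk κ hκ hκ1 hκA hGW
  have hx3R : (3:ℝ) ≤ x := by exact_mod_cast hx3
  have hlog : 0 < Real.log x := Real.log_pos (by linarith only [hx3R])
  have hxpos : (0:ℝ) < x := by linarith only [hx3R]
  have hlr : 0 < Real.log x ^ r := by positivity
  constructor
  · by_contra hcon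
    push Not at hcon
    obtain ⟨T, hT, hdis, hadm, hlow⟩ := hx A hA hk κ hκ hκ1 hκA hGW
      (goodSet r x A (c₂ / (4 * C₃) * κ ^ m)) hcon.le
    have h1 : ∑ a ∈ T, (cnt a x : ℝ) ≤
        ∑ a ∈ T, (c₂ / (4 * C₃) * κ ^ m * (x / Real.log x ^ r)) * SI a := by
      refine Finset.sum_le_sum fun a ha => ?_
      have h2 : a ∉ goodSet r x A (c₂ / (4 * C₃) * κ ^ m) := Finset.disjoint_left.mp hdis ha
      rw [mem_goodSet] at h2
      have h3 : ¬ (c₂ / (4 * C₃) * κ ^ m * SI a * (x / Real.log x ^ r) ≤ cnt a x) :=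
        fun h4 => h2 ⟨hT ha, hadm a ha, h4⟩
      push Not at h3
      refine h3.le.trans (le_of_eq ?_)
      ring
    rw [← Finset.mul_sum] at h1
    have h2 : ∑ a ∈ T, SI a ≤ 2 * (C₃ * Real.log x ^ r) := by
      have h3 : ∑ a ∈ T, SI a ≤ ∑ a ∈ injTuples r A, SI a :=
        Finset.sum_le_sum_of_subset_of_nonneg hT fun a ha _ => SI_nonneg a (mem_injTuples.mp ha).2
      have h4 := hSI A hA
      have h5 : (1 + 1 : ℝ) * GW r (zz r x) A (fun _ => 1) ≤ 2 * (C₃ * Real.log x ^ r) := by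
        linarith only [hGW]
      exact h3.trans (h4.trans h5)
    have h3 : (c₂ / (4 * C₃) * κ ^ m * (x / Real.log x ^ r)) * ∑ a ∈ T, SI a ≤
        (c₂ / (4 * C₃) * κ ^ m * (x / Real.log x ^ r)) * (2 * (C₃ * Real.log x ^ r)) :=
      mul_le_mul_of_nonneg_left h2 (by (clear * - hC₃ hc₂ hx3 hκ hlog; positivity))
    have h4 : (c₂ / (4 * C₃) * κ ^ m * (x / Real.log x ^ r)) * (2 * (C₃ * Real.log x ^ r)) =
        c₂ * κ ^ m * x / 2 := by
      field_simp
      ring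
    have h5 : 0 < c₂ * κ ^ m * x := by (clear * - hc₂ hx3 hκ; positivity)
    linarith only [hlow, h1, h3, h4, h5]
  · obtain ⟨T, hT, -, -, hlow⟩ := hx A hA hk κ hκ hκ1 hκA hGW ∅ (by
      rw [Finset.card_empty]
      push_cast
      positivity)
    have h1 : ∑ a ∈ T, (cnt a x : ℝ) ≤ ∑ a ∈ injTuples r A, (cnt a x : ℝ) :=
      Finset.sum_le_sum_of_subset_of_nonneg hT fun a _ _ => Nat.cast_nonneg _
    have h2 : c₂ / (4 * C₃) * κ ^ m * ((x / Real.log x ^ r) * GW r (zz r x) A (fun _ => 1)) ≤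
        c₂ / (4 * C₃) * κ ^ m * ((x / Real.log x ^ r) * (C₃ * Real.log x ^ r)) := by
      gcongr
    have h3 : c₂ / (4 * C₃) * κ ^ m * ((x / Real.log x ^ r) * (C₃ * Real.log x ^ r)) =
        c₂ * κ ^ m * x / 4 := by
      field_simp
    have h5 : 0 < c₂ * κ ^ m * x := by (clear * - hc₂ hx3 hκ; positivity)
    linarith only [hlow, h1, h2, h3, h5]

/-- Selberg's upper bound turns a lower bound on average into a lower bound for the mass of the good
tuples. -/
lemma selberg_mass {r x : ℕ} {A : Finset ℕ} {K ρ Φ Φ₁ M' : ℝ} (hK : 0 < K) (hρ0 : 0 ≤ ρ)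
    (hΦ : Φ ≤ Φ₁) (hΦ₁ : 0 < Φ₁) (hX : 0 < (x:ℝ) / Real.log x ^ r)
    (hup : ∀ a ∈ injTuples r A, (∀ p : ℕ, p.Prime → nuI a p < p) →
      (cnt a x : ℝ) ≤ K * SI a * (x / Real.log x ^ r))
    (hM : ∑ a ∈ injTuples r A, SI a ≤ M') (hM2 : (A.card : ℝ) ^ r ≤ M')
    (hlow : Φ₁ * ((x / Real.log x ^ r) * M') ≤ ∑ a ∈ injTuples r A, (cnt a x : ℝ))
    (hbig : 2 * r ≤ (1 - ρ) * Φ₁ * (x / Real.log x ^ r)) :
    (1 - ρ) * Φ₁ / (2 * K) * M' ≤ ∑ a ∈ goodSet r x A (ρ * Φ), SI a := by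
  classical
  set X : ℝ := (x:ℝ) / Real.log x ^ r with hXdef
  set SG : ℝ := ∑ a ∈ goodSet r x A (ρ * Φ), SI a with hSG
  have hM'0 : 0 ≤ M' := le_trans (by positivity) hM2
  have hub : ∑ a ∈ injTuples r A, (cnt a x : ℝ) ≤ K * X * SG +
      ρ * Φ₁ * X * ∑ a ∈ injTuples r A, SI a + r * (A.card : ℝ) ^ r := by
    have hpt : ∀ a ∈ injTuples r A, (cnt a x : ℝ) ≤
        (if a ∈ goodSet r x A (ρ * Φ) then K * X * SI a else 0) + ρ * Φ₁ * X * SI a + r := by
      intro a ha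
      have hinj := (mem_injTuples.mp ha).2
      have hSI0 := SI_nonneg a hinj
      have hρS : 0 ≤ ρ * Φ₁ * X * SI a := by positivity
      have hr0 : (0:ℝ) ≤ r := by positivity
      by_cases hadm : ∀ p : ℕ, p.Prime → nuI a p < p
      · by_cases hPa : a ∈ goodSet r x A (ρ * Φ)
        · rw [if_pos hPa]
          have h4 := hup a ha hadm
          have h5 : K * SI a * X = K * X * SI a := by ring
          linarith only [hρS, h4]
        · rw [if_neg hPa]
          rw [mem_goodSet] at hPa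
          have h6 : ¬ ρ * Φ * SI a * X ≤ cnt a x := fun h => hPa ⟨ha, hadm, h⟩
          push Not at h6
          have h7 : ρ * Φ * SI a * X ≤ ρ * Φ₁ * X * SI a := by
            have h8 : ρ * Φ ≤ ρ * Φ₁ := mul_le_mul_of_nonneg_left hΦ hρ0
            calc ρ * Φ * SI a * X = ρ * Φ * (SI a * X) := by ring
              _ ≤ ρ * Φ₁ * (SI a * X) := mul_le_mul_of_nonneg_right h8 (by positivity)
              _ = _ := by ring
          linarith only [h6, h7]
      · push Not at hadm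
        obtain ⟨p, hp, hnp⟩ := hadm
        have h8 := count_inadm a hp hnp x
        rw [Fintype.card_fin] at h8
        have h9 : (cnt a x : ℝ) ≤ r := by exact_mod_cast h8
        have h10 : 0 ≤ (if a ∈ goodSet r x A (ρ * Φ) then K * X * SI a else 0) := by
          split_ifs
          · positivity
          · exact le_refl _
        linarith only [hρS, h9, h10]
    have hsum := Finset.sum_le_sum hpt
    rw [Finset.sum_add_distrib, Finset.sum_add_distrib, ← Finset.mul_sum, Finset.sum_const,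
      nsmul_eq_mul, ← Finset.sum_filter, ← Finset.mul_sum] at hsum
    have hfil : (injTuples r A).filter (fun a => a ∈ goodSet r x A (ρ * Φ)) =
        goodSet r x A (ρ * Φ) := by
      ext a
      rw [Finset.mem_filter]
      exact ⟨fun h => h.2, fun h => ⟨(mem_goodSet.mp h).1, h⟩⟩
    rw [hfil] at hsum
    have hcardle : ((injTuples r A).card : ℝ) ≤ (A.card : ℝ) ^ r := by
      exact_mod_cast card_injTuples_le r A
    have h11 : ((injTuples r A).card : ℝ) * r ≤ r * (A.card : ℝ) ^ r := by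
      rw [mul_comm]
      exact mul_le_mul_of_nonneg_left hcardle (by positivity)
    linarith only [hsum, h11]
  have h1 : ρ * Φ₁ * X * ∑ a ∈ injTuples r A, SI a ≤ ρ * Φ₁ * X * M' :=
    mul_le_mul_of_nonneg_left hM (by positivity)
  have h2 : (r:ℝ) * (A.card : ℝ) ^ r ≤ (1 - ρ) * Φ₁ * X / 2 * M' := by
    have hr0 : (0:ℝ) ≤ r := by positivity
    calc (r:ℝ) * (A.card : ℝ) ^ r ≤ r * M' := mul_le_mul_of_nonneg_left hM2 hr0
      _ ≤ (1 - ρ) * Φ₁ * X / 2 * M' := mul_le_mul_of_nonneg_right (by linarith only [hbig]) hM'0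
  have h3 : (1 - ρ) * Φ₁ * X / 2 * M' ≤ K * X * SG := by
    have e : Φ₁ * (X * M') = (1 - ρ) * Φ₁ * X / 2 * M' + (1 - ρ) * Φ₁ * X / 2 * M' +
      ρ * Φ₁ * X * M' := by ring
    linarith only [hlow, hub, h1, h2]
  rw [div_mul_eq_mul_div, div_le_iff₀ (by positivity)]
  have h4 : X * ((1 - ρ) * Φ₁ * M') ≤ X * (SG * (2 * K)) := by
    calc X * ((1 - ρ) * Φ₁ * M') = 2 * ((1 - ρ) * Φ₁ * X / 2 * M') := by ring
      _ ≤ 2 * (K * X * SG) := by linarith only [hlow, hub, h1, h2]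
      _ = X * (SG * (2 * K)) := by ring
  exact le_of_mul_le_mul_left h4 hX

lemma fprod_eq_zero {r : ℕ} (hr : 2 ≤ r) {l : ℝ} (hl0 : 0 < l) (hl : l < 1) : fprod r l = 0 := by
  unfold fprod
  refine Finset.prod_eq_zero (Finset.mem_range.mpr (by omega : 1 < r)) ?_
  apply max_eq_left
  have : 1 < 1 / l := by rw [lt_div_iff₀ hl0]; linarith
  push_cast
  linarith

lemma tendsto_X (r : ℕ) : Tendsto (fun x : ℕ => (x:ℝ) / Real.log x ^ r) atTop atTop := by
  have h1 : Tendsto (fun x : ℝ => x / Real.log x ^ r) atTop atTop := by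
    have h2 := (Real.isLittleO_pow_log_id_atTop (n := r)).tendsto_div_nhds_zero
    have h3 : Tendsto (fun x : ℝ => Real.log x ^ r / x) atTop (nhdsWithin 0 (Set.Ioi 0)) := by
      rw [tendsto_nhdsWithin_iff]
      refine ⟨h2, ?_⟩
      filter_upwards [eventually_gt_atTop 1] with x hx
      have := Real.log_pos hx
      exact Set.mem_Ioi.mpr (by positivity)
    have h4 := h3.inv_tendsto_nhdsGT_zero
    refine h4.congr fun x => ?_
    simp
  exact h1.comp tendsto_natCast_atTop_atTop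

/-- A finite set of shifts has bounded mean singular series for large `x`. -/
lemma fixed_GW (r : ℕ) (hr : 1 ≤ r) (A : Finset ℕ) {C₃ : ℝ} (hC₃ : 0 < C₃) : ∀ᶠ x : ℕ in atTop,
    GW r (zz r x) A (fun _ => 1) ≤ C₃ * Real.log x ^ r := by
  obtain ⟨c, hc, hDZ⟩ := DZ_lower
  have hlogT : Tendsto (fun x : ℕ => Real.log x) atTop atTop :=
    Real.tendsto_log_atTop.comp tendsto_natCast_atTop_atTop
  have hzT : Tendsto (fun x : ℕ => zz r x) atTop atTop := by
    unfold zz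
    exact tendsto_nat_floor_atTop.comp (hlogT.atTop_div_const (by positivity))
  have h1 : Tendsto (fun x : ℕ => (A.card : ℝ) / c * (Real.log (Real.log x) / Real.log x)) atTop
      (nhds 0) := by
    have h2 : Tendsto (fun y : ℝ => Real.log y / y) atTop (nhds 0) := by
      have := (Real.isLittleO_log_id_atTop).tendsto_div_nhds_zero
      simpa using this
    have h3 := (h2.comp hlogT).const_mul ((A.card : ℝ) / c)
    rw [mul_zero] at h3
    exact h3
  filter_upwards [h1.eventually_le_const (show (0:ℝ) < min 1 C₃ by positivity),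
    hzT.eventually_ge_atTop 2, hlogT.eventually_ge_atTop 3] with x hx1 hx2 hx3
  have hlog : 0 < Real.log x := by linarith
  have hz2 : (2:ℝ) ≤ (zz r x : ℝ) := by exact_mod_cast hx2
  have hzle : (zz r x : ℝ) ≤ Real.log x := by
    unfold zz
    refine (Nat.floor_le (by positivity)).trans ?_
    rw [div_le_iff₀ (by positivity)]
    have : (0:ℝ) ≤ r := Nat.cast_nonneg r
    nlinarith only [hx3]
  have hlogz : 0 < Real.log (zz r x : ℝ) := Real.log_pos (by linarith only [hz2])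
  have hDZ1 : (DZ (zz r x))⁻¹ ≤ Real.log (Real.log x) / c := by
    have h2 := hDZ (zz r x) hx2
    have h3 : Real.log (zz r x : ℝ) ≤ Real.log (Real.log x) :=
      Real.log_le_log (by linarith only [hz2]) hzle
    rw [inv_le_comm₀ (DZ_pos _) (div_pos (by linarith only [hlogz, h3]) hc), inv_div]
    refine le_trans ?_ h2
    exact div_le_div_of_nonneg_left hc.le hlogz h3
  have hSZ : ∀ a : Fin r → ℕ, SZ (zz r x) a ≤ (Real.log (Real.log x) / c) ^ r := by
    intro a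
    have h2 : SZ (zz r x) a ≤ ((DZ (zz r x))⁻¹) ^ r := by
      unfold SZ DZ
      rw [← Finset.prod_inv_distrib, ← Finset.prod_pow]
      refine Finset.prod_le_prod (fun p hp => ?_) fun p hp => ?_
      · exact locI_nonneg a ((Nat.mem_primesLE.1 hp).2)
      · unfold locI
        rw [Fintype.card_fin]
        have hp' := ((Nat.mem_primesLE.1 hp).2)
        have h3 : (0:ℝ) ≤ ((1 - 1 / (p:ℝ))⁻¹) ^ r := by
          have : (1:ℝ) ≤ p := by exact_mod_cast hp'.one_lt.le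
          have h4 : 1 / (p:ℝ) ≤ 1 := by
            rw [div_le_one (by linarith only [this])]; exact this
          have h5 : (0:ℝ) ≤ (1 - 1 / (p:ℝ))⁻¹ := inv_nonneg.mpr (by linarith only [h4])
          positivity
        have h4 : 1 - (nuI a p : ℝ) / p ≤ 1 := by
          have : (0:ℝ) ≤ (nuI a p : ℝ) / p := by positivity
          linarith only [this]
        calc (1 - (nuI a p : ℝ) / p) * ((1 - 1 / (p:ℝ))⁻¹) ^ r
            ≤ 1 * ((1 - 1 / (p:ℝ))⁻¹) ^ r := mul_le_mul_of_nonneg_right h4 h3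
          _ = _ := one_mul _
    refine h2.trans (pow_le_pow_left₀ (inv_nonneg.mpr (DZ_pos _).le) hDZ1 r)
  have hG : GW r (zz r x) A (fun _ => 1) ≤ (A.card : ℝ) ^ r * (Real.log (Real.log x) / c) ^ r := by
    unfold GW
    have h2 : ∑ a ∈ Fintype.piFinset (fun _ : Fin r => A), (∏ i : Fin r, (1:ℝ)) * SZ (zz r x) a ≤
        ∑ a ∈ Fintype.piFinset (fun _ : Fin r => A), (Real.log (Real.log x) / c) ^ r := by
      refine Finset.sum_le_sum fun a _ => ?_
      rw [Finset.prod_const_one, one_mul]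
      exact hSZ a
    refine h2.trans (le_of_eq ?_)
    rw [Finset.sum_const, Fintype.card_piFinset_const, nsmul_eq_mul]
    push_cast
    rfl
  refine hG.trans ?_
  have e : (A.card : ℝ) ^ r * (Real.log (Real.log x) / c) ^ r =
      ((A.card : ℝ) / c * (Real.log (Real.log x) / Real.log x)) ^ r * Real.log x ^ r := by
    rw [← mul_pow, ← mul_pow]
    congr 1
    field_simp
  rw [e]
  refine mul_le_mul_of_nonneg_right ?_ (by positivity)
  have hll : 0 ≤ Real.log (Real.log x) := Real.log_nonneg (by linarith only [hx3])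
  have h5 : ((A.card : ℝ) / c * (Real.log (Real.log x) / Real.log x)) ^ r ≤ (min 1 C₃) ^ r :=
    pow_le_pow_left₀ (by positivity) hx1 r
  refine h5.trans ?_
  have h6 : (min 1 C₃) ^ r ≤ (min 1 C₃) ^ 1 :=
    pow_le_pow_of_le_one (by positivity) (min_le_left _ _) hr
  rw [pow_one] at h6
  exact h6.trans (min_le_right _ _)

/-- A diagonal argument: finitely many choices for each of countably many conditions. -/
lemma exists_subseq {ι Γ : Type} [Countable ι] (F : ι → Finset Γ) (P : ι → Γ → ℕ → Prop)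
    (h : ∀ i, ∀ᶠ n in atTop, ∃ g ∈ F i, P i g n) :
    ∃ φ : ℕ → ℕ, StrictMono φ ∧ ∀ i, ∃ g ∈ F i, ∀ᶠ j in atTop, P i g (φ j) := by
  have hU : ((Filter.hyperfilter ℕ : Ultrafilter ℕ) : Filter ℕ) ≤ atTop :=
    Nat.hyperfilter_le_atTop
  have h1 : ∀ i, ∃ g ∈ F i, ∀ᶠ n in ((Filter.hyperfilter ℕ : Ultrafilter ℕ) : Filter ℕ), P i g n := by
    intro i
    by_contra hcon
    push Not at hcon
    have h2 : ∀ g ∈ F i, ∀ᶠ n in ((Filter.hyperfilter ℕ : Ultrafilter ℕ) : Filter ℕ), ¬ P i g n := by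
      intro g hg
      exact hcon g hg
    have h3 := (Filter.eventually_all_finset _).mpr h2
    obtain ⟨n, ⟨g, hg, hgn⟩, hn⟩ := (((h i).filter_mono hU).and h3).exists
    exact hn g hg hgn
  choose g hg hP using h1
  obtain ⟨Fil, hFil⟩ : ∃ Fil : Filter ℕ, Fil = atTop ⊓ ⨅ i, Filter.principal {n | P i (g i) n} :=
    ⟨_, rfl⟩
  have hne : Fil.NeBot := by
    rw [hFil]
    exact (Filter.hyperfilter ℕ).neBot'.mono
      (le_inf hU (le_iInf fun i => Filter.le_principal_iff.mpr (hP i)))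
  have hcg : Fil.IsCountablyGenerated := by
    rw [hFil]
    infer_instance
  obtain ⟨u, hu⟩ := Filter.exists_seq_tendsto Fil
  have h4 : Tendsto u atTop atTop := hu.mono_right (by rw [hFil]; exact inf_le_left)
  obtain ⟨ψ, hψ, hψ'⟩ := Filter.strictMono_subseq_of_tendsto_atTop h4
  refine ⟨u ∘ ψ, hψ', fun i => ⟨g i, hg i, ?_⟩⟩
  have h5 : ∀ᶠ n in Fil, P i (g i) n := by
    rw [hFil]
    exact Filter.mem_inf_of_right (Filter.mem_iInf_of_mem i (Filter.mem_principal_self _))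
  exact hψ.tendsto_atTop.eventually (hu.eventually h5)

theorem every_set : ∃ B : ℕ, ∀ r : ℕ, 2 ≤ r → ∃ (k₀ : ℕ) (c K : ℝ), 1 ≤ k₀ ∧ 0 < c ∧ 0 < K ∧
    (∀ a : Fin r → ℕ, Function.Injective a → (∀ p : ℕ, p.Prime → nuI a p < p) → ∀ x : ℕ, 2 ≤ x →
      (cnt a x : ℝ) ≤ K * SI a * (x / Real.log x ^ r)) ∧
    (∀ ε ρ : ℝ, 0 < ε → 0 ≤ ρ → ρ < 1 → ∀ K₀ : ℕ, ∀ᶠ x : ℕ in atTop, ∀ A : Finset ℕ,
      (∀ a ∈ A, (a : ℝ) ≤ x * Real.log x ^ K₀) → k₀ ≤ A.card →
      ∀ Φ : ℝ, Φ = max (fprod r (A.card / Real.log x) - ε)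
        (c * (min 1 (A.card / Real.log x)) ^ (B ^ r)) →
      Φ * (x / Real.log x ^ r) * (∑ a ∈ injTuples r A, SI a) ≤
        ∑ a ∈ injTuples r A, (cnt a x : ℝ) ∧
      Φ * (x / Real.log x ^ r) * (A.card : ℝ) ^ r ≤ ∑ a ∈ injTuples r A, (cnt a x : ℝ) ∧
      c * (1 - ρ) * (A.card : ℝ) ^ r ≤ ∑ a ∈ goodSet r x A (ρ * Φ), SI a ∧
      c * (1 - ρ) * ((min 1 (A.card / Real.log x)) ^ r * ∑ a ∈ injTuples r A, SI a) ≤
        ∑ a ∈ goodSet r x A (ρ * Φ), SI a) ∧
    (∀ X : ℕ → ℕ, Tendsto X atTop atTop → ∃ φ : ℕ → ℕ, StrictMono φ ∧ ∀ A : Finset ℕ,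
      k₀ ≤ A.card → ∃ G ⊆ injTuples r A, c * (A.card : ℝ) ^ r ≤ G.card ∧
      (∀ a ∈ G, ∀ p : ℕ, p.Prime → nuI a p < p) ∧ ∀ᶠ j : ℕ in atTop, ∀ a ∈ G,
        c * (A.card / Real.log (X (φ j))) ^ (B ^ r) * SI a * (X (φ j) / Real.log (X (φ j)) ^ r) ≤
          cnt a (X (φ j))) := by
  classical
  obtain ⟨B, hB⟩ := good_many
  refine ⟨B, fun r hr => ?_⟩
  obtain ⟨K, hK, hKup⟩ := tuple_upperI r (by omega)
  obtain ⟨C₃, c₁, hC₃, hc₁, hone⟩ := case_one2 r hr
  obtain ⟨k₀, m, cg, δ₁, hm, hcg, hδ₁, htwo⟩ := hB r hr C₃ hC₃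
  have hc00 : 0 < c0 r := c0_pos r (by omega)
  obtain ⟨cΦ, hcΦ⟩ : ∃ cΦ : ℝ, cΦ = min (cg / 2) (c₁ / 2) := ⟨_, rfl⟩
  have hcΦ0 : 0 < cΦ := by rw [hcΦ]; positivity
  have hcΦg : cΦ ≤ cg / 2 := by rw [hcΦ]; exact min_le_left _ _
  have hcΦ1 : cΦ ≤ c₁ / 2 := by rw [hcΦ]; exact min_le_right _ _
  obtain ⟨c, hc⟩ : ∃ c : ℝ, c = min (min cΦ (cΦ / (2 * K)))
    (min (min (c0 r * δ₁) δ₁) (c0 r * δ₁ / (2 * C₃))) := ⟨_, rfl⟩
  have hc0 : 0 < c := by rw [hc]; positivity
  have hca : c ≤ cΦ := by rw [hc]; exact (min_le_left _ _).trans (min_le_left _ _)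
  have hcb : c ≤ cΦ / (2 * K) := by rw [hc]; exact (min_le_left _ _).trans (min_le_right _ _)
  have hcc : c ≤ c0 r * δ₁ := by
    rw [hc]; exact (min_le_right _ _).trans ((min_le_left _ _).trans (min_le_left _ _))
  have hcd : c ≤ δ₁ := by
    rw [hc]; exact (min_le_right _ _).trans ((min_le_left _ _).trans (min_le_right _ _))
  have hce : c ≤ c0 r * δ₁ / (2 * C₃) := by
    rw [hc]; exact (min_le_right _ _).trans (min_le_right _ _)
  have hup : ∀ a : Fin r → ℕ, Function.Injective a → (∀ p : ℕ, p.Prime → nuI a p < p) →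
      ∀ x : ℕ, 2 ≤ x → (cnt a x : ℝ) ≤ K * SI a * (x / Real.log x ^ r) := by
    intro a ha hadm x hx
    exact hKup (Fin r) a (Fintype.card_fin r) ha hadm x hx
  refine ⟨max k₀ 1, c, K, le_max_right _ _, hc0, hK, hup, ?_, ?_⟩
  · -- all sets
    intro ε ρ hε hρ0 hρ1 K₀
    obtain ⟨ε₂, hε₂⟩ : ∃ ε₂ : ℝ, ε₂ = min (ε / 2) 1 := ⟨_, rfl⟩
    have hε₂0 : 0 < ε₂ := by rw [hε₂]; (clear * - hε; positivity)
    have hε₂a : ε₂ ≤ ε / 2 := by rw [hε₂]; exact min_le_left _ _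
    have hε₂b : ε₂ ≤ 1 := by rw [hε₂]; exact min_le_right _ _
    have hρ' : 0 < 1 - ρ := by linarith only [hρ1]
    filter_upwards [hone K₀, htwo K₀, sharp_lower r hr K₀ (ε := ε / 2) (by (clear * - hε; positivity)),
      sum_SI_le r (by omega) K₀ hε₂0,
      (tendsto_X r).eventually_ge_atTop (2 * r / ((1 - ρ) * cΦ)), eventually_ge_atTop 3]
      with x hx1 hx2 hx4 hx5 hx6 hx3 A hA hAk Φ hΦ
    have hx3R : (3:ℝ) ≤ x := by exact_mod_cast hx3
    have hlog : 0 < Real.log x := Real.log_pos (by linarith only [hx3R])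
    have hxpos : (0:ℝ) < x := by linarith only [hx3R]
    have hlr : 0 < Real.log x ^ r := by (clear * - hlog; positivity)
    have hk₀A : k₀ ≤ A.card := (le_max_left _ _).trans hAk
    have hA1 : 1 ≤ A.card := (le_max_right _ _).trans hAk
    have hAne : A.Nonempty := Finset.card_pos.mp (by omega)
    have hcard : (0:ℝ) < A.card := by exact_mod_cast hA1
    set X : ℝ := (x:ℝ) / Real.log x ^ r with hX
    have hXpos : 0 < X := by (clear * - hx3 hlog; positivity)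
    set l : ℝ := A.card / Real.log x with hl
    have hl0 : 0 < l := by (clear * - hcΦ hcΦ0 hcΦg hcΦ1 hc hc0 hca hcb hcc hcd hce hε₂ hε₂0 hε₂a hε₂b hx5 hlog hAne hx6 hΦ; positivity)
    set θ : ℝ := min 1 l with hθ
    have hθ0 : 0 < θ := lt_min one_pos hl0
    have hθ1 : θ ≤ 1 := min_le_left _ _
    have hθA : θ * Real.log x ≤ A.card := by
      calc θ * Real.log x ≤ l * Real.log x := mul_le_mul_of_nonneg_right (min_le_right _ _) hlog.le
        _ = A.card := by rw [hl]; field_simp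
    have hθM : θ ^ (B ^ r) ≤ 1 := pow_le_one₀ hθ0.le hθ1
    have hθMm : θ ^ (B ^ r) ≤ θ ^ m := pow_le_pow_of_le_one hθ0.le hθ1 hm
    have hθM0 : 0 < θ ^ (B ^ r) := by (clear * - hcΦ hcΦ0 hcΦg hcΦ1 hc hc0 hca hcb hcc hcd hce hε₂ hε₂0 hε₂a hε₂b hx5 hlog hAne hx6 hΦ; positivity)
    set G := GW r (zz r x) A (fun _ => 1) with hG
    set SS1 : ℝ := ∑ a ∈ injTuples r A, SI a with hSS1
    set CC : ℝ := ∑ a ∈ injTuples r A, (cnt a x : ℝ) with hCC
    have hCC0 : 0 ≤ CC := Finset.sum_nonneg fun a _ => Nat.cast_nonneg _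
    have hSS0 : 0 ≤ SS1 := Finset.sum_nonneg fun a ha => SI_nonneg a (mem_injTuples.mp ha).2
    have hpd : (A.card : ℝ) ^ r ≤ G := card_pow_le_GW r (zz r x) (by omega) A
    have hG0 : 0 ≤ G := le_trans (by (clear * - hcΦ hcΦ0 hcΦg hcΦ1 hc hc0 hca hcb hcc hcd hce hε₂ hε₂0 hε₂a hε₂b hx5 hAne hx6 hΦ; positivity)) hpd
    have h5 : SS1 ≤ (1 + ε₂) * G := hx5 A hA
    obtain ⟨M', hM'⟩ : ∃ M' : ℝ, M' = max SS1 ((A.card : ℝ) ^ r) := ⟨_, rfl⟩
    have hM'S : SS1 ≤ M' := by rw [hM']; exact le_max_left _ _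
    have hM'A : (A.card : ℝ) ^ r ≤ M' := by rw [hM']; exact le_max_right _ _
    have hM'0 : 0 ≤ M' := hSS0.trans hM'S
    have hM'G : M' ≤ (1 + ε₂) * G := by
      rw [hM']
      exact max_le h5 (hpd.trans (le_mul_of_one_le_left hG0 (by linarith only [hε₂0])))
    have hM'2 : M' ≤ 2 * G := hM'G.trans (mul_le_mul_of_nonneg_right (by linarith only [hε₂b]) hG0)
    have hXG0 : 0 ≤ X * G := by (clear * - hx3 hlog hG0; positivity)
    -- total lower bound with the power of θ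
    have htot : (2 * cΦ) * θ ^ (B ^ r) * (X * G) ≤ CC := by
      by_cases hcase : C₃ * x ≤ X * G
      · refine le_trans ?_ (hx1 A hA hcase)
        refine mul_le_mul_of_nonneg_right ?_ hXG0
        calc 2 * cΦ * θ ^ (B ^ r) ≤ 2 * cΦ * 1 := mul_le_mul_of_nonneg_left hθM (by linarith only [hcΦ0])
          _ ≤ c₁ := by linarith only [hcΦ1]
      · have hG3 : G ≤ C₃ * Real.log x ^ r := by
          push Not at hcase
          have e : X * G = x * (G / Real.log x ^ r) := by rw [hX]; ring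
          rw [e] at hcase
          have h6 : x * (G / Real.log x ^ r) ≤ x * C₃ := by linarith only [hcase]
          have h7 := le_of_mul_le_mul_left h6 hxpos
          rwa [div_le_iff₀ hlr] at h7
        refine le_trans ?_ (hx2 A hA hk₀A θ hθ0 hθ1 hθA hG3).2
        refine mul_le_mul_of_nonneg_right ?_ hXG0
        calc 2 * cΦ * θ ^ (B ^ r) ≤ cg * θ ^ (B ^ r) :=
              mul_le_mul_of_nonneg_right (by linarith only [hcΦg]) hθM0.le
          _ ≤ cg * θ ^ m := mul_le_mul_of_nonneg_left hθMm hcg.le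
    have hsharp : (fprod r l - ε / 2) * (X * G) ≤ CC := hx4 A hA hAne
    obtain ⟨Φ₁, hΦ₁⟩ : ∃ Φ₁ : ℝ, Φ₁ = max (fprod r l - ε) (cΦ * θ ^ (B ^ r)) := ⟨_, rfl⟩
    have hΦΦ₁ : Φ ≤ Φ₁ := by
      rw [hΦ, hΦ₁]
      exact max_le_max le_rfl (mul_le_mul_of_nonneg_right hca hθM0.le)
    have hΦ₁0 : 0 < Φ₁ := by
      rw [hΦ₁]
      exact lt_max_of_lt_right (by (clear * - hcΦ hcΦ0 hcΦg hcΦ1 hc hc0 hca hcb hcc hcd hce hε₂ hε₂0 hε₂a hε₂b hx5 hlog hAne hx6 hΦ h5 hM' hM'S hM'A hM'0 hM'G hM'2 htot hΦ₁ hΦΦ₁; positivity))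
    have hmain : Φ₁ * (X * M') ≤ CC := by
      have ha : (fprod r l - ε) * (X * M') ≤ CC := by
        rcases le_total (fprod r l - ε) 0 with h | h
        · exact (mul_nonpos_of_nonpos_of_nonneg h (by (clear * - hx3 hlog hM'0; positivity))).trans hCC0
        · refine le_trans ?_ hsharp
          have hf1 := fprod_le_one r hl0
          have h6 : (fprod r l - ε) * M' ≤ (fprod r l - ε / 2) * G := by
            calc (fprod r l - ε) * M' ≤ (fprod r l - ε) * ((1 + ε₂) * G) :=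
                  mul_le_mul_of_nonneg_left hM'G h
              _ = ((fprod r l - ε) * (1 + ε₂)) * G := by ring
              _ ≤ (fprod r l - ε / 2) * G := by
                  refine mul_le_mul_of_nonneg_right ?_ hG0
                  have h7 : (fprod r l - ε) * ε₂ ≤ 1 * ε₂ :=
                    mul_le_mul_of_nonneg_right (by linarith only [hε₂0, hε₂a, hf1]) hε₂0.le
                  have h8 : (fprod r l - ε) * (1 + ε₂) =
                    (fprod r l - ε) + (fprod r l - ε) * ε₂ := by ring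
                  rw [h8]
                  linarith only [hε₂a, h7]
          calc (fprod r l - ε) * (X * M') = X * ((fprod r l - ε) * M') := by ring
            _ ≤ X * ((fprod r l - ε / 2) * G) := mul_le_mul_of_nonneg_left h6 hXpos.le
            _ = _ := by ring
      have hb : (cΦ * θ ^ (B ^ r)) * (X * M') ≤ CC := by
        refine le_trans ?_ htot
        calc (cΦ * θ ^ (B ^ r)) * (X * M') ≤ (cΦ * θ ^ (B ^ r)) * (X * (2 * G)) := by gcongr
          _ = _ := by ring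
      rw [hΦ₁]
      rcases max_choice (fprod r l - ε) (cΦ * θ ^ (B ^ r)) with h | h
      · rw [h]; exact ha
      · rw [h]; exact hb
    have hΦ0 : 0 < Φ := by
      rw [hΦ]
      exact lt_max_of_lt_right (by (clear * - hcΦ hcΦ0 hcΦg hcΦ1 hc hc0 hca hcb hcc hcd hce hε₂ hε₂0 hε₂a hε₂b hx5 hlog hAne hx6 hΦ h5 hM' hM'S hM'A hM'0 hM'G hM'2 htot hΦ₁ hΦΦ₁ hΦ₁0 hmain; positivity))
    have hXM0 : 0 ≤ X * M' := by (clear * - hx3 hlog hM'0; positivity)
    refine ⟨?_, ?_, ?_⟩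
    · calc Φ * X * SS1 ≤ Φ * X * M' := by gcongr
        _ = Φ * (X * M') := by ring
        _ ≤ Φ₁ * (X * M') := mul_le_mul_of_nonneg_right hΦΦ₁ hXM0
        _ ≤ CC := hmain
    · calc Φ * X * (A.card : ℝ) ^ r ≤ Φ * X * M' := by gcongr
        _ = Φ * (X * M') := by ring
        _ ≤ Φ₁ * (X * M') := mul_le_mul_of_nonneg_right hΦΦ₁ hXM0
        _ ≤ CC := hmain
    -- the mass of the good tuples
    have hupA : ∀ a ∈ injTuples r A, (∀ p : ℕ, p.Prime → nuI a p < p) →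
        (cnt a x : ℝ) ≤ K * SI a * (x / Real.log x ^ r) := fun a ha hadm =>
      hup a (mem_injTuples.mp ha).2 hadm x (by omega)
    have hcaseA : ∀ Φ₂ : ℝ, cΦ ≤ Φ₂ → Φ ≤ Φ₂ → Φ₂ * (X * M') ≤ CC →
        c * (1 - ρ) * M' ≤ ∑ a ∈ goodSet r x A (ρ * Φ), SI a := by
      intro Φ₂ h1 h2 h3
      have hΦ₂0 : 0 < Φ₂ := lt_of_lt_of_le hcΦ0 h1
      have hbig : 2 * r ≤ (1 - ρ) * Φ₂ * (x / Real.log x ^ r) := by
        have h6 : 2 * r / ((1 - ρ) * cΦ) ≤ X := hx6
        rw [div_le_iff₀ (by (clear * - hcΦ0 hρ1; positivity))] at h6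
        calc (2 * r : ℝ) ≤ X * ((1 - ρ) * cΦ) := h6
          _ = (1 - ρ) * cΦ * X := by ring
          _ ≤ (1 - ρ) * Φ₂ * X := by gcongr
      have h7 := selberg_mass hK hρ0 h2 hΦ₂0 hXpos hupA hM'S hM'A h3 hbig
      refine le_trans (mul_le_mul_of_nonneg_right ?_ hM'0) h7
      calc c * (1 - ρ) ≤ cΦ / (2 * K) * (1 - ρ) := mul_le_mul_of_nonneg_right hcb hρ'.le
        _ ≤ Φ₂ / (2 * K) * (1 - ρ) := by gcongr
        _ = (1 - ρ) * Φ₂ / (2 * K) := by ring
    have hAconc : c * (1 - ρ) * M' ≤ ∑ a ∈ goodSet r x A (ρ * Φ), SI a →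
        c * (1 - ρ) * (A.card : ℝ) ^ r ≤ ∑ a ∈ goodSet r x A (ρ * Φ), SI a ∧
        c * (1 - ρ) * (θ ^ r * SS1) ≤ ∑ a ∈ goodSet r x A (ρ * Φ), SI a := by
      intro h1
      refine ⟨le_trans (mul_le_mul_of_nonneg_left hM'A (by (clear * - hc0 hρ1; positivity))) h1,
        le_trans (mul_le_mul_of_nonneg_left ?_ (by (clear * - hc0 hρ1; positivity))) h1⟩
      have h2 : θ ^ r ≤ 1 := pow_le_one₀ hθ0.le hθ1
      calc θ ^ r * SS1 ≤ 1 * SS1 := mul_le_mul_of_nonneg_right h2 hSS0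
        _ = SS1 := one_mul _
        _ ≤ M' := hM'S
    by_cases hl1 : 1 ≤ l
    · have hθe : θ = 1 := min_eq_left hl1
      refine hAconc (hcaseA Φ₁ ?_ hΦΦ₁ hmain)
      rw [hΦ₁, hθe, one_pow, mul_one]
      exact le_max_right _ _
    · push Not at hl1
      have hf0 : fprod r l = 0 := fprod_eq_zero hr hl0 hl1
      have hΦe : Φ = c * θ ^ (B ^ r) := by
        rw [hΦ, hf0]
        apply max_eq_right
        have : 0 < c * θ ^ (B ^ r) := by (clear * - hcΦ hcΦ0 hcΦg hcΦ1 hc hc0 hca hcb hcc hcd hce hε₂ hε₂0 hε₂a hε₂b hx5 hlog hAne hx6 hΦ h5 hM' hM'S hM'A hM'0 hM'G hM'2 htot hΦ₁ hΦΦ₁ hΦ₁0 hmain hΦ0 hXM0 hcaseA hAconc; positivity)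
        linarith only [hε₂0, hε₂a, this]
      by_cases hcase : C₃ * x ≤ X * G
      · refine hAconc (hcaseA (c₁ / 2) hcΦ1 ?_ ?_)
        · rw [hΦe]
          calc c * θ ^ (B ^ r) ≤ c * 1 := mul_le_mul_of_nonneg_left hθM hc0.le
            _ ≤ c₁ / 2 := by linarith only [hcΦ1, hca]
        · refine le_trans ?_ (hx1 A hA hcase)
          calc c₁ / 2 * (X * M') ≤ c₁ / 2 * (X * (2 * G)) := by gcongr
            _ = c₁ * (X * G) := by ring
      · have hG3 : G ≤ C₃ * Real.log x ^ r := by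
          push Not at hcase
          have e : X * G = x * (G / Real.log x ^ r) := by rw [hX]; ring
          rw [e] at hcase
          have h6 : x * (G / Real.log x ^ r) ≤ x * C₃ := by linarith only [hcase]
          have h7 := le_of_mul_le_mul_left h6 hxpos
          rwa [div_le_iff₀ hlr] at h7
        have h8 := (hx2 A hA hk₀A θ hθ0 hθ1 hθA hG3).1
        have hρΦ : ρ * Φ ≤ cg * θ ^ m := by
          calc ρ * Φ ≤ 1 * Φ := mul_le_mul_of_nonneg_right hρ1.le hΦ0.le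
            _ = c * θ ^ (B ^ r) := by rw [one_mul, hΦe]
            _ ≤ cg * θ ^ m := by
                refine mul_le_mul ?_ hθMm hθM0.le hcg.le
                linarith only [hcΦ0, hcΦg, hca]
        have hsub : goodSet r x A (cg * θ ^ m) ⊆ goodSet r x A (ρ * Φ) :=
          goodSet_mono hρΦ hXpos.le
        have h9 : (c0 r * δ₁) * (A.card : ℝ) ^ r ≤ ∑ a ∈ goodSet r x A (ρ * Φ), SI a := by
          have h10 : c0 r * ((goodSet r x A (ρ * Φ)).card : ℝ) ≤
              ∑ a ∈ goodSet r x A (ρ * Φ), SI a := by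
            rw [mul_comm, ← nsmul_eq_mul]
            refine Finset.card_nsmul_le_sum _ _ _ fun a ha => ?_
            have hmem := mem_goodSet.mp ha
            have := c0_le_SI a (mem_injTuples.mp hmem.1).2
              (by rw [Fintype.card_fin]; omega) hmem.2.1
            rwa [Fintype.card_fin] at this
          have h11 : ((goodSet r x A (cg * θ ^ m)).card : ℝ) ≤ (goodSet r x A (ρ * Φ)).card := by
            exact_mod_cast Finset.card_le_card hsub
          calc (c0 r * δ₁) * (A.card : ℝ) ^ r = c0 r * (δ₁ * (A.card : ℝ) ^ r) := by ring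
            _ ≤ c0 r * ((goodSet r x A (ρ * Φ)).card : ℝ) :=
                mul_le_mul_of_nonneg_left (h8.trans h11) hc00.le
            _ ≤ _ := h10
        have hAr : 0 ≤ (A.card : ℝ) ^ r := by (clear * - hcΦ hcΦ0 hcΦg hcΦ1 hc hc0 hca hcb hcc hcd hce hε₂ hε₂0 hε₂a hε₂b hx5 hAne hx6 hΦ h5 hM' hM'S hM'A hM'0 hM'G hM'2 htot hΦ₁ hΦΦ₁ hΦ₁0 hmain hΦ0 hXM0 hcaseA hAconc hΦe hρΦ hsub h9; positivity)
        constructor
        · refine le_trans (mul_le_mul_of_nonneg_right ?_ hAr) h9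
          calc c * (1 - ρ) ≤ c * 1 := mul_le_mul_of_nonneg_left (by linarith only [hρ0]) hc0.le
            _ ≤ c0 r * δ₁ := by linarith only [hcc]
        · refine le_trans ?_ h9
          have h12 : θ ^ r * SS1 ≤ 2 * C₃ * (A.card : ℝ) ^ r := by
            calc θ ^ r * SS1 ≤ θ ^ r * (2 * (C₃ * Real.log x ^ r)) := by
                  refine mul_le_mul_of_nonneg_left ?_ (by (clear * - hcΦ hcΦ0 hcΦg hcΦ1 hc hc0 hca hcb hcc hcd hce hε₂ hε₂0 hε₂a hε₂b hx5 hlog hAne hx6 hΦ h5 hM' hM'S hM'A hM'0 hM'G hM'2 htot hΦ₁ hΦΦ₁ hΦ₁0 hmain hΦ0 hXM0 hcaseA hAconc hΦe hρΦ hsub h9; positivity))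
                  exact hM'S.trans (hM'2.trans (by linarith only [hG3]))
              _ = 2 * C₃ * (θ * Real.log x) ^ r := by rw [mul_pow]; ring
              _ ≤ 2 * C₃ * (A.card : ℝ) ^ r := by gcongr
          calc c * (1 - ρ) * (θ ^ r * SS1) ≤ c * (1 - ρ) * (2 * C₃ * (A.card : ℝ) ^ r) :=
                mul_le_mul_of_nonneg_left h12 (by (clear * - hc0 hρ1; positivity))
            _ ≤ c * 1 * (2 * C₃ * (A.card : ℝ) ^ r) := by
                refine mul_le_mul_of_nonneg_right ?_ (by (clear * - hC₃ hcΦ hcΦ0 hcΦg hcΦ1 hc hc0 hca hcb hcc hcd hce hε₂ hε₂0 hε₂a hε₂b hx5 hAne hx6 hΦ h5 hM' hM'S hM'A hM'0 hM'G hM'2 htot hΦ₁ hΦΦ₁ hΦ₁0 hmain hΦ0 hXM0 hcaseA hAconc hΦe hρΦ hsub h9; positivity))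
                exact mul_le_mul_of_nonneg_left (by linarith only [hρ0]) hc0.le
            _ = (c * (2 * C₃)) * (A.card : ℝ) ^ r := by ring
            _ ≤ (c0 r * δ₁) * (A.card : ℝ) ^ r := by
                refine mul_le_mul_of_nonneg_right ?_ hAr
                rwa [le_div_iff₀ (by (clear * - hC₃; positivity))] at hce
  · -- finite sets
    intro X hX
    obtain ⟨P, hP⟩ : ∃ P : Finset ℕ → Finset (Fin r → ℕ) → ℕ → Prop, P = fun (A : Finset ℕ)
      (G : Finset (Fin r → ℕ)) (x : ℕ) => c * (A.card : ℝ) ^ r ≤ G.card ∧ (∀ a ∈ G, ∀ p : ℕ, p.Prime → nuI a p < p) ∧ ∀ a ∈ G,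
        c * (A.card / Real.log x) ^ (B ^ r) * SI a * (x / Real.log x ^ r) ≤ cnt a x := ⟨_, rfl⟩
    have hlogT : Tendsto (fun x : ℕ => Real.log x) atTop atTop :=
      Real.tendsto_log_atTop.comp tendsto_natCast_atTop_atTop
    have hev : ∀ A : Finset ℕ, max k₀ 1 ≤ A.card →
        ∀ᶠ x : ℕ in atTop, ∃ G ∈ (injTuples r A).powerset, P A G x := by
      intro A hAk
      have hk₀A : k₀ ≤ A.card := (le_max_left _ _).trans hAk
      have hA1 : 1 ≤ A.card := (le_max_right _ _).trans hAk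
      have hcard : (0:ℝ) < A.card := by exact_mod_cast hA1
      filter_upwards [htwo 0, fixed_GW r (by omega) A hC₃, hlogT.eventually_ge_atTop (A.card : ℝ),
        eventually_ge_atTop (A.sup id), eventually_ge_atTop 3] with x hx2 hxG hxl hxA hx3
      have hx3R : (3:ℝ) ≤ x := by exact_mod_cast hx3
      have hlog : 0 < Real.log x := Real.log_pos (by linarith only [hx3R])
      have hxpos : (0:ℝ) < x := by linarith only [hx3R]
      have hX0 : 0 ≤ (x:ℝ) / Real.log x ^ r := by (clear * - hx3 hlog; positivity)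
      have hκ1 : A.card / Real.log x ≤ 1 := by rw [div_le_one hlog]; exact hxl
      have hκ0 : 0 < A.card / Real.log x := by (clear * - hA1 hlog; positivity)
      have h8 := (hx2 A (fun a ha => by
        rw [pow_zero, mul_one]
        exact_mod_cast (Finset.le_sup (f := id) ha).trans hxA) hk₀A (A.card / Real.log x)
        hκ0 hκ1 (le_of_eq (by field_simp)) hxG).1
      rw [hP]
      refine ⟨goodSet r x A (cg * (A.card / Real.log x) ^ m), ?_, ?_, ?_, ?_⟩
      · rw [Finset.mem_powerset]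
        intro a ha
        exact (mem_goodSet.mp ha).1
      · exact le_trans (mul_le_mul_of_nonneg_right hcd (by (clear * - hA1; positivity))) h8
      · intro a ha
        exact (mem_goodSet.mp ha).2.1
      · intro a ha
        have hmem := mem_goodSet.mp ha
        have hSI0 := SI_nonneg a (mem_injTuples.mp hmem.1).2
        refine le_trans ?_ hmem.2.2
        refine mul_le_mul_of_nonneg_right (mul_le_mul_of_nonneg_right ?_ hSI0) hX0
        refine mul_le_mul (by linarith only [hcΦ0, hcΦg, hca]) (pow_le_pow_of_le_one hκ0.le hκ1 hm) (by (clear * - hA1 hlog; positivity)) hcg.le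
    obtain ⟨φ, hφ, hφA⟩ := exists_subseq (ι := {A : Finset ℕ // max k₀ 1 ≤ A.card})
      (fun A => (injTuples r A.1).powerset) (fun A G j => P A.1 G (X j))
      (fun A => hX.eventually (hev A.1 A.2))
    refine ⟨φ, hφ, fun A hAk => ?_⟩
    obtain ⟨G, hG, hGP⟩ := hφA ⟨A, hAk⟩
    rw [hP] at hGP
    obtain ⟨j, hj⟩ := hGP.exists
    exact ⟨G, Finset.mem_powerset.mp hG, hj.1, hj.2.1, hGP.mono fun j hj => hj.2.2⟩

end Pool.Agent.Lib.MQ
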